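import Mathlib

/-!
The integral `∫_0^∞ t^(a-1) exp (-(r t)) dt = (1/r)^a Γ(a)` for complex `r` with positive real part.
-/

set_option autoImplicit false

open Complex Set Filter Topology MeasureTheory

namespace Pool.Agent.V7H89.C2

theorem cpow_meas (a : ℝ) : AEStronglyMeasurable (fun t : ℝ => (t : ℂ) ^ ((a : ℂ) - 1))
    (volume.restrict (Ioi (0:ℝ))) := by
  apply ContinuousOn.aestronglyMeasurable _ measurableSet_Ioi
  intro t ht
  have ht0 : (0:ℝ) < t := ht
  apply ContinuousAt.continuousWithinAt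
  exact (continuousAt_ofReal_cpow_const t _ (Or.inr ht0.ne'))

theorem gamma_rot {a : ℝ} (ha : 0 < a) {r : ℂ} (hr : 0 < r.re) :
    ∫ t in Ioi (0:ℝ), (t : ℂ) ^ ((a : ℂ) - 1) * Complex.exp (-(r * t)) =
      (1 / r) ^ (a : ℂ) * Complex.Gamma a := by
  set U : Set ℂ := {r | 0 < r.re} with hU
  have hUo : IsOpen U := isOpen_lt continuous_const Complex.continuous_re
  have hUc : IsPreconnected U := (convex_halfSpace_re_gt 0).isPreconnected
  set G : ℂ → ℂ := fun r => ∫ t in Ioi (0:ℝ), (t : ℂ) ^ ((a : ℂ) - 1) * Complex.exp (-(r * t)) with hG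
  have hnorm : ∀ (r : ℂ) (t : ℝ), t ∈ Ioi (0:ℝ) →
      ‖(t : ℂ) ^ ((a : ℂ) - 1) * Complex.exp (-(r * t))‖ = t ^ (a - 1) * Real.exp (-(r.re * t)) := by
    intro r t ht
    have ht0 : (0:ℝ) < t := ht
    rw [norm_mul, Complex.norm_exp, Complex.norm_cpow_eq_rpow_re_of_pos ht0, Complex.neg_re,
      Complex.re_mul_ofReal]
    simp
  have hdom : ∀ (s : ℝ), -1 < s → ∀ ε : ℝ, 0 < ε →
      IntegrableOn (fun t : ℝ => t ^ s * Real.exp (-(ε * t))) (Ioi 0) := by
    intro s hs ε hε
    have h5 := integrableOn_rpow_mul_exp_neg_mul_rpow (p := 1) (s := s) (b := ε) hs one_pos hε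
    refine h5.congr_fun (fun x _ => ?_) measurableSet_Ioi
    simp only [Real.rpow_one, neg_mul]
  have hGd : DifferentiableOn ℂ G U := by
    intro r0 hr0
    have hr0' : 0 < r0.re := hr0
    apply DifferentiableAt.differentiableWithinAt
    have hε : 0 < r0.re / 2 := by linarith
    have hball : ∀ r ∈ Metric.ball r0 (r0.re / 2), r0.re / 2 < r.re := by
      intro r hr
      have h1 := Complex.abs_re_le_norm (r - r0)
      rw [mem_ball_iff_norm] at hr
      have h2 := (abs_le.1 (h1.trans hr.le)).1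
      have h3 := (abs_lt.1 (h1.trans_lt hr)).1
      rw [Complex.sub_re] at h3
      linarith
    have hD := hasDerivAt_integral_of_dominated_loc_of_deriv_le (𝕜 := ℂ)
      (μ := volume.restrict (Ioi (0:ℝ)))
      (F := fun (r : ℂ) (t : ℝ) => (t : ℂ) ^ ((a : ℂ) - 1) * Complex.exp (-(r * t)))
      (F' := fun (r : ℂ) (t : ℝ) => (t : ℂ) ^ ((a : ℂ) - 1) * (Complex.exp (-(r * t)) * (-(t:ℂ))))
      (x₀ := r0) (s := Metric.ball r0 (r0.re / 2)) (bound := fun t : ℝ => t ^ a * Real.exp (-(r0.re / 2 * t)))
      (Metric.ball_mem_nhds _ hε) ?_ ?_ ?_ ?_ ?_ ?_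
    · exact hD.2.differentiableAt
    · filter_upwards with r
      apply (cpow_meas a).mul
      apply Continuous.aestronglyMeasurable
      fun_prop
    · refine Integrable.mono' (hdom (a - 1) (by linarith) r0.re hr0') ?_ ?_
      · apply (cpow_meas a).mul
        apply Continuous.aestronglyMeasurable
        fun_prop
      · filter_upwards [ae_restrict_mem measurableSet_Ioi] with t ht
        rw [hnorm r0 t ht]
    · apply (cpow_meas a).mul
      apply Continuous.aestronglyMeasurable
      fun_prop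
    · filter_upwards [ae_restrict_mem measurableSet_Ioi] with t ht r hr
      have ht0 : (0:ℝ) < t := ht
      rw [← mul_assoc, norm_mul, hnorm r t ht, norm_neg, Complex.norm_real, Real.norm_of_nonneg ht0.le]
      have e1 : t ^ (a - 1) * Real.exp (-(r.re * t)) * t = t ^ a * Real.exp (-(r.re * t)) := by
        rw [Real.rpow_sub_one ht0.ne']
        field_simp
      rw [e1]
      apply mul_le_mul_of_nonneg_left _ (Real.rpow_nonneg ht0.le _)
      apply Real.exp_le_exp.2
      have := hball r hr
      nlinarith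
    · exact hdom a (by linarith) _ hε
    · filter_upwards with t r hr
      have h1 : HasDerivAt (fun r : ℂ => -(r * (t:ℂ))) (-(t:ℂ)) r := by
        have := ((hasDerivAt_id' r).mul_const (t:ℂ)).fun_neg
        rwa [one_mul] at this
      exact (h1.cexp).const_mul _
  have hHd : DifferentiableOn ℂ (fun r : ℂ => (1 / r) ^ (a : ℂ) * Complex.Gamma a) U := by
    intro r0 hr0
    have hr0' : 0 < r0.re := hr0
    have hne : r0 ≠ 0 := by
      rintro rfl
      simp at hr0'
    apply DifferentiableAt.differentiableWithinAt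
    apply DifferentiableAt.mul_const
    apply DifferentiableAt.cpow_const
    · exact (differentiableAt_const _).div differentiableAt_id hne
    · left
      rw [one_div, Complex.inv_re]
      exact div_pos hr0' (Complex.normSq_pos.2 hne)
  have hfreq : ∃ᶠ z in 𝓝[≠] (1:ℂ), G z = (1 / z) ^ (a : ℂ) * Complex.Gamma a := by
    have h1 : Tendsto (fun n : ℕ => ((1 + 1 / ((n:ℝ) + 1) : ℝ) : ℂ)) atTop (𝓝[≠] (1:ℂ)) := by
      rw [tendsto_nhdsWithin_iff]
      constructor
      · have h2 : Tendsto (fun n : ℕ => (1 + 1 / ((n:ℝ) + 1) : ℝ)) atTop (𝓝 (1 + 0)) :=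
          tendsto_const_nhds.add tendsto_one_div_add_atTop_nhds_zero_nat
        rw [add_zero] at h2
        have h3 := (Complex.continuous_ofReal.tendsto (1:ℝ)).comp h2
        rw [Complex.ofReal_one] at h3
        exact h3
      · filter_upwards with n
        simp only [mem_compl_iff, mem_singleton_iff]
        have : (0:ℝ) < 1 / ((n:ℝ) + 1) := by positivity
        intro hc
        have h4 : (1 + 1 / ((n:ℝ) + 1) : ℝ) = 1 := by exact_mod_cast hc
        linarith
    refine h1.frequently (Frequently.of_forall fun n => ?_)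
    have hpos : (0:ℝ) < 1 + 1 / ((n:ℝ) + 1) := by positivity
    exact Complex.integral_cpow_mul_exp_neg_mul_Ioi (by simpa using ha) hpos
  have := (hGd.analyticOnNhd hUo).eqOn_of_preconnected_of_frequently_eq (hHd.analyticOnNhd hUo) hUc
    (show (1:ℂ) ∈ U by simp [hU]) hfreq
  exact this hr

end Pool.Agent.V7H89.C2
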