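import Mathlib
import Pool.Agent.V7H89.C2.Rot

/-!
The entire function `E(ζ) = ∫_0^∞ exp (ζ x^κ - x) dx`, `0 < κ < 1`, its Taylor coefficients
`Γ(1 + κ k) / k!`, its growth, and its boundedness outside a sector around the positive axis.
-/

set_option autoImplicit false

open Complex Set Filter Topology MeasureTheory

namespace Pool.Agent.V7H89.C2

/-- the Taylor coefficients -/
noncomputable def ek (κ : ℝ) (k : ℕ) : ℝ := Real.Gamma (1 + κ * k) / k.factorial

theorem ek_pos {κ : ℝ} (h0 : 0 < κ) (k : ℕ) : 0 < ek κ k := by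
  unfold ek
  apply div_pos
  · apply Real.Gamma_pos_of_pos
    have : (0:ℝ) ≤ k := Nat.cast_nonneg k
    positivity
  · exact_mod_cast k.factorial_pos

theorem gamma_le {κ : ℝ} (h0 : 0 < κ) (h1 : κ < 1) (k : ℕ) :
    Real.Gamma (1 + κ * k) ≤ (k.factorial : ℝ) ^ κ := by
  have hk : (0:ℝ) ≤ k := Nat.cast_nonneg k
  have h := Real.Gamma_mul_add_mul_le_rpow_Gamma_mul_rpow_Gamma (s := 1) (t := 1 + k) one_pos
    (by linarith) (a := 1 - κ) (b := κ) (by linarith) h0 (by ring)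
  have e1 : (1 - κ) * 1 + κ * (1 + k) = 1 + κ * k := by ring
  rw [e1, Real.Gamma_one, Real.one_rpow, one_mul, add_comm (1:ℝ) (k:ℝ), Real.Gamma_nat_eq_factorial] at h
  exact h

theorem summable_ek {κ : ℝ} (h0 : 0 < κ) (h1 : κ < 1) (x : ℝ) (hx : 0 ≤ x) :
    Summable (fun k : ℕ => ek κ k * x ^ k) := by
  have hσ : 0 < 1 - κ := by linarith
  have hs : Summable (fun k : ℕ => (x + 1) ^ k * ((k.factorial : ℝ) ^ (1 - κ))⁻¹) := by
    apply summable_of_ratio_test_tendsto_lt_one (l := 0) (by norm_num)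
    · filter_upwards with k
      have : (0:ℝ) < k.factorial := by exact_mod_cast k.factorial_pos
      have h2 : (0:ℝ) < (k.factorial : ℝ) ^ (1 - κ) := Real.rpow_pos_of_pos this _
      positivity
    · have e1 : ∀ k : ℕ, ‖(x + 1) ^ (k + 1) * (((k + 1).factorial : ℝ) ^ (1 - κ))⁻¹‖ /
          ‖(x + 1) ^ k * ((k.factorial : ℝ) ^ (1 - κ))⁻¹‖ = (x + 1) * (((k:ℝ) + 1) ^ (1 - κ))⁻¹ := by
        intro k
        have hf : (0:ℝ) < k.factorial := by exact_mod_cast k.factorial_pos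
        have h2 : (0:ℝ) < (k.factorial : ℝ) ^ (1 - κ) := Real.rpow_pos_of_pos hf _
        have h3 : (0:ℝ) < ((k:ℝ) + 1) ^ (1 - κ) := Real.rpow_pos_of_pos (by positivity) _
        have h4 : (((k + 1).factorial : ℕ) : ℝ) = ((k:ℝ) + 1) * k.factorial := by
          rw [Nat.factorial_succ]; push_cast; ring
        rw [h4, Real.mul_rpow (by positivity) hf.le, Real.norm_of_nonneg (by positivity),
          Real.norm_of_nonneg (by positivity)]
        field_simp
        ring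
      simp_rw [e1]
      have h5 : Tendsto (fun k : ℕ => ((k:ℝ) + 1) ^ (1 - κ)) atTop atTop :=
        (tendsto_rpow_atTop hσ).comp (tendsto_atTop_add_const_right _ _ tendsto_natCast_atTop_atTop)
      have h6 := (tendsto_inv_atTop_zero.comp h5).const_mul (x + 1)
      rwa [mul_zero] at h6
  refine Summable.of_nonneg_of_le (fun k => mul_nonneg (ek_pos h0 k).le (pow_nonneg hx k)) (fun k => ?_) hs
  have hf : (0:ℝ) < k.factorial := by exact_mod_cast k.factorial_pos
  have h2 : (0:ℝ) < (k.factorial : ℝ) ^ (1 - κ) := Real.rpow_pos_of_pos hf _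
  have h3 : ek κ k ≤ ((k.factorial : ℝ) ^ (1 - κ))⁻¹ := by
    unfold ek
    rw [div_le_iff₀ hf, inv_mul_eq_div, le_div_iff₀ h2]
    calc Real.Gamma (1 + κ * k) * (k.factorial : ℝ) ^ (1 - κ)
        ≤ (k.factorial : ℝ) ^ κ * (k.factorial : ℝ) ^ (1 - κ) :=
          mul_le_mul_of_nonneg_right (gamma_le h0 h1 k) h2.le
      _ = k.factorial := by
          rw [← Real.rpow_add hf, show κ + (1 - κ) = 1 by ring, Real.rpow_one]
  calc ek κ k * x ^ k ≤ ((k.factorial : ℝ) ^ (1 - κ))⁻¹ * (x + 1) ^ k :=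
        mul_le_mul h3 (pow_le_pow_left₀ hx (by linarith) k) (pow_nonneg hx k) (by positivity)
    _ = _ := mul_comm _ _

/-- the function `E` -/
noncomputable def E (κ : ℝ) (ζ : ℂ) : ℂ := ∑' k : ℕ, (ek κ k : ℂ) * ζ ^ k

theorem E_hasSum {κ : ℝ} (h0 : 0 < κ) (h1 : κ < 1) (ζ : ℂ) :
    HasSum (fun k : ℕ => (ek κ k : ℂ) * ζ ^ k) (E κ ζ) := by
  apply Summable.hasSum
  apply Summable.of_norm
  refine (summable_ek h0 h1 ‖ζ‖ (norm_nonneg ζ)).congr fun k => ?_
  rw [norm_mul, norm_pow, Complex.norm_real, Real.norm_of_nonneg (ek_pos h0 k).le]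

/-- the integrand of the rotated representation -/
noncomputable def Ig (κ φ : ℝ) (ζ : ℂ) (x : ℝ) : ℂ :=
  Complex.exp (ζ * Complex.exp (κ * φ * I) * ((x ^ κ : ℝ) : ℂ) - Complex.exp (φ * I) * x)

theorem re_expI (φ : ℝ) : (Complex.exp (φ * I)).re = Real.cos φ := by
  rw [Complex.exp_ofReal_mul_I_re]

/-- integral representation along the ray of direction `φ` -/
theorem E_integral {κ : ℝ} (h0 : 0 < κ) (h1 : κ < 1) {φ : ℝ} (hφ : |φ| < Real.pi / 2) (ζ : ℂ) :
    E κ ζ = Complex.exp (φ * I) * ∫ x in Ioi (0:ℝ), Ig κ φ ζ x := by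
  have hcos : 0 < Real.cos φ := Real.cos_pos_of_mem_Ioo ⟨by linarith [(abs_lt.1 hφ).1], (abs_lt.1 hφ).2⟩
  -- the terms
  set b : ℂ := ζ * Complex.exp (κ * φ * I) with hb
  set F : ℕ → ℝ → ℂ := fun k x => b ^ k / k.factorial * (((x ^ κ : ℝ) : ℂ) ^ k *
    Complex.exp (-(Complex.exp (φ * I) * x))) with hF
  have hbn : ‖b‖ = ‖ζ‖ := by
    rw [hb, norm_mul, show ((κ : ℂ) * φ * I) = ((κ * φ : ℝ) : ℂ) * I by push_cast; ring,
      Complex.norm_exp_ofReal_mul_I, mul_one]
  have hrpow : ∀ x ∈ Ioi (0:ℝ), ∀ k : ℕ, (((x ^ κ : ℝ) : ℂ) ^ k) = (x : ℂ) ^ (((1 + κ * k : ℝ) : ℂ) - 1) := by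
    intro x hx k
    have hx0 : (0:ℝ) < x := hx
    rw [← Complex.ofReal_pow, ← Real.rpow_natCast, ← Real.rpow_mul hx0.le,
      Complex.ofReal_cpow hx0.le]
    congr 1
    push_cast; ring
  have hint : ∀ k : ℕ, ∫ x in Ioi (0:ℝ), F k x = (Complex.exp (φ * I))⁻¹ * ((ek κ k : ℂ) * ζ ^ k) := by
    intro k
    rw [hF]
    simp only
    rw [integral_const_mul]
    have e1 : ∫ x in Ioi (0:ℝ), ((x ^ κ : ℝ) : ℂ) ^ k * Complex.exp (-(Complex.exp (φ * I) * x)) =
        ∫ x in Ioi (0:ℝ), (x : ℂ) ^ (((1 + κ * k : ℝ) : ℂ) - 1) * Complex.exp (-(Complex.exp (φ * I) * x)) := by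
      apply setIntegral_congr_fun measurableSet_Ioi
      intro x hx
      simp only
      rw [hrpow x hx k]
    have hk : (0:ℝ) ≤ k := Nat.cast_nonneg k
    rw [e1, gamma_rot (a := 1 + κ * k) (by positivity) (r := Complex.exp (φ * I))
      (by rw [re_expI]; exact hcos)]
    have e2 : (1 / Complex.exp (φ * I)) ^ (((1 + κ * k : ℝ) : ℂ)) =
        Complex.exp (-(φ * I) * ((1 + κ * k : ℝ) : ℂ)) := by
      rw [one_div, ← Complex.exp_neg, Complex.cpow_def_of_ne_zero (Complex.exp_ne_zero _),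
        Complex.log_exp]
      · have := (abs_lt.1 hφ).2
        simp only [neg_im, mul_im, ofReal_re, I_im, mul_one, ofReal_im, I_re, mul_zero, add_zero]
        linarith [Real.pi_pos]
      · have := (abs_lt.1 hφ).1
        simp only [neg_im, mul_im, ofReal_re, I_im, mul_one, ofReal_im, I_re, mul_zero, add_zero]
        linarith [Real.pi_pos]
    rw [e2, Complex.Gamma_ofReal, hb, mul_pow, ← Complex.exp_nat_mul]
    unfold ek
    rw [← Complex.exp_neg]
    have e3 : Complex.exp (-(φ * I) * ((1 + κ * k : ℝ) : ℂ)) =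
        Complex.exp (-(φ * I)) * Complex.exp (-((k : ℂ) * (κ * φ * I))) := by
      rw [← Complex.exp_add]
      congr 1
      push_cast; ring
    rw [e3]
    have e4 : Complex.exp ((k : ℂ) * (κ * φ * I)) * Complex.exp (-((k : ℂ) * (κ * φ * I))) = 1 := by
      rw [← Complex.exp_add, add_neg_cancel, Complex.exp_zero]
    push_cast
    linear_combination (ζ ^ k / (k.factorial : ℂ) * Complex.exp (-(φ * I)) * (Real.Gamma (1 + κ * k) : ℂ)) * e4
  have hnorm : ∀ k : ℕ, ∀ x ∈ Ioi (0:ℝ), ‖F k x‖ = ‖ζ‖ ^ k / k.factorial *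
      (x ^ ((1 + κ * k) - 1) * Real.exp (-(Real.cos φ * x))) := by
    intro k x hx
    have hx0 : (0:ℝ) < x := hx
    rw [hF]
    simp only
    rw [norm_mul, norm_div, norm_pow, hbn, norm_mul, norm_pow, Complex.norm_real, Complex.norm_exp]
    have e1 : (-(Complex.exp (φ * I) * (x:ℂ))).re = -(Real.cos φ * x) := by
      rw [Complex.neg_re, Complex.re_mul_ofReal, re_expI]
    rw [e1, Real.norm_of_nonneg (Real.rpow_nonneg hx0.le _), Complex.norm_natCast, ← Real.rpow_natCast (x ^ κ) k,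
      ← Real.rpow_mul hx0.le]
    congr 3
    ring
  have hintn : ∀ k : ℕ, ∫ x in Ioi (0:ℝ), ‖F k x‖ = ‖ζ‖ ^ k / k.factorial *
      ((1 / Real.cos φ) ^ (1 + κ * k) * Real.Gamma (1 + κ * k)) := by
    intro k
    rw [setIntegral_congr_fun measurableSet_Ioi (hnorm k), integral_const_mul,
      Real.integral_rpow_mul_exp_neg_mul_Ioi (by positivity) hcos]
  have hFint : ∀ k : ℕ, IntegrableOn (F k) (Ioi 0) := by
    intro k
    have h3 : IntegrableOn (fun x => ‖ζ‖ ^ k / k.factorial *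
      (x ^ ((1 + κ * k) - 1) * Real.exp (-(Real.cos φ * x)))) (Ioi 0) := by
      apply Integrable.const_mul
      have h5 := integrableOn_rpow_mul_exp_neg_mul_rpow (p := 1) (s := (1 + κ * k) - 1) (b := Real.cos φ)
        (by have : (0:ℝ) ≤ κ * k := by positivity
            linarith) one_pos hcos
      refine h5.congr_fun (fun x _ => ?_) measurableSet_Ioi
      simp only [Real.rpow_one, neg_mul]
    refine Integrable.mono' h3 ?_ ?_
    · apply AEStronglyMeasurable.const_mul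
      apply Measurable.aestronglyMeasurable
      fun_prop
    · filter_upwards [ae_restrict_mem measurableSet_Ioi] with x hx
      exact (hnorm k x hx).le
  have hsumn : Summable (fun k : ℕ => ∫ x in Ioi (0:ℝ), ‖F k x‖) := by
    simp_rw [hintn]
    have h3 := (summable_ek h0 h1 (‖ζ‖ * (1 / Real.cos φ) ^ κ) (by positivity)).mul_left (1 / Real.cos φ)
    refine h3.congr fun k => ?_
    unfold ek
    rw [mul_pow, ← Real.rpow_natCast ((1 / Real.cos φ) ^ κ), ← Real.rpow_mul (by positivity),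
      Real.rpow_add (by positivity), Real.rpow_one]
    ring
  have hmain := hasSum_integral_of_summable_integral_norm hFint hsumn
  have hpt : ∀ x ∈ Ioi (0:ℝ), ∑' k, F k x = Ig κ φ ζ x := by
    intro x hx
    have h4 : HasSum (fun k : ℕ => (b * ((x ^ κ : ℝ) : ℂ)) ^ k / (k.factorial : ℂ))
        (Complex.exp (b * ((x ^ κ : ℝ) : ℂ))) := by
      rw [Complex.exp_eq_exp_ℂ]
      exact NormedSpace.expSeries_div_hasSum_exp _
    have h5 := h4.mul_right (Complex.exp (-(Complex.exp (φ * I) * x)))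
    rw [← Complex.exp_add] at h5
    have h6 : Ig κ φ ζ x = Complex.exp (b * ((x ^ κ : ℝ) : ℂ) + -(Complex.exp (φ * I) * x)) := by
      unfold Ig
      rw [← hb, sub_eq_add_neg]
    rw [h6, ← h5.tsum_eq]
    congr 1
    funext k
    rw [hF]
    simp only
    rw [mul_pow]
    ring
  rw [setIntegral_congr_fun measurableSet_Ioi hpt] at hmain
  have h7 : HasSum (fun k : ℕ => (Complex.exp (φ * I))⁻¹ * ((ek κ k : ℂ) * ζ ^ k))
      (∫ x in Ioi (0:ℝ), Ig κ φ ζ x) := by
    refine hmain.congr_fun fun k => ?_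
    exact (hint k).symm
  have h8 := (E_hasSum h0 h1 ζ).mul_left (Complex.exp (φ * I))⁻¹
  have h9 := h7.unique h8
  rw [h9, ← mul_assoc, mul_inv_cancel₀ (Complex.exp_ne_zero _), one_mul]

/-- boundedness where the linear term has nonpositive real part -/
theorem E_bound {κ : ℝ} (h0 : 0 < κ) (h1 : κ < 1) {φ : ℝ} (hφ : |φ| < Real.pi / 2) {ζ : ℂ}
    (hζ : (ζ * Complex.exp (κ * φ * I)).re ≤ 0) : ‖E κ ζ‖ ≤ 1 / Real.cos φ := by
  have hcos : 0 < Real.cos φ := Real.cos_pos_of_mem_Ioo ⟨by linarith [(abs_lt.1 hφ).1], (abs_lt.1 hφ).2⟩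
  rw [E_integral h0 h1 hφ, norm_mul, Complex.norm_exp_ofReal_mul_I, one_mul]
  have h2 : ∫ x in Ioi (0:ℝ), Real.exp (-(Real.cos φ * x)) = 1 / Real.cos φ := by
    have := Real.integral_rpow_mul_exp_neg_mul_Ioi (a := 1) (r := Real.cos φ) one_pos hcos
    simpa using this
  rw [← h2]
  have h3 : IntegrableOn (fun x => Real.exp (-(Real.cos φ * x))) (Ioi 0) := by
    have h5 := integrableOn_rpow_mul_exp_neg_mul_rpow (p := 1) (s := 0) (b := Real.cos φ)
        (by norm_num) one_pos hcos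
    refine h5.congr_fun (fun x _ => ?_) measurableSet_Ioi
    simp only [Real.rpow_zero, one_mul, Real.rpow_one, neg_mul]
  refine norm_integral_le_of_norm_le h3 ?_
  filter_upwards [ae_restrict_mem measurableSet_Ioi] with x hx
  have hx0 : (0:ℝ) < x := hx
  unfold Ig
  rw [Complex.norm_exp]
  apply Real.exp_le_exp.2
  rw [Complex.sub_re, Complex.re_mul_ofReal, Complex.re_mul_ofReal, re_expI]
  have : (ζ * Complex.exp (κ * φ * I)).re * x ^ κ ≤ 0 :=
    mul_nonpos_of_nonpos_of_nonneg hζ (Real.rpow_nonneg hx0.le _)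
  linarith

/-- global growth -/
theorem E_growth {κ : ℝ} (h0 : 0 < κ) (h1 : κ < 1) : ∃ C : ℝ, 0 < C ∧ ∀ ζ : ℂ,
    ‖E κ ζ‖ ≤ 2 * Real.exp (C * ‖ζ‖ ^ (1 / (1 - κ))) := by
  have hσ : 0 < 1 - κ := by linarith
  refine ⟨(1 - κ) * (2 ^ κ) ^ (1 / (1 - κ)), by positivity, fun ζ => ?_⟩
  set C := (1 - κ) * ((2:ℝ) ^ κ) ^ (1 / (1 - κ)) with hC
  have hφ : |(0:ℝ)| < Real.pi / 2 := by rw [abs_zero]; positivity
  rw [E_integral h0 h1 hφ, norm_mul, Complex.norm_exp_ofReal_mul_I, one_mul]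
  have h2 : ∫ x in Ioi (0:ℝ), Real.exp (C * ‖ζ‖ ^ (1 / (1 - κ))) * Real.exp (-(1 / 2 * x)) =
      2 * Real.exp (C * ‖ζ‖ ^ (1 / (1 - κ))) := by
    have := Real.integral_rpow_mul_exp_neg_mul_Ioi (a := 1) (r := 1 / 2) one_pos (by norm_num)
    simp only [sub_self, Real.rpow_zero, one_mul, Real.rpow_one, Real.Gamma_one, mul_one] at this
    rw [integral_const_mul, this]
    ring
  rw [← h2]
  have h3 : IntegrableOn (fun x => Real.exp (C * ‖ζ‖ ^ (1 / (1 - κ))) * Real.exp (-(1 / 2 * x))) (Ioi 0) := by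
    apply Integrable.const_mul
    have h5 := integrableOn_rpow_mul_exp_neg_mul_rpow (p := 1) (s := 0) (b := 1 / 2)
        (by norm_num) one_pos (by norm_num)
    refine h5.congr_fun (fun x _ => ?_) measurableSet_Ioi
    simp only [Real.rpow_zero, one_mul, Real.rpow_one, neg_mul]
  refine norm_integral_le_of_norm_le h3 ?_
  filter_upwards [ae_restrict_mem measurableSet_Ioi] with x hx
  have hx0 : (0:ℝ) < x := hx
  unfold Ig
  rw [Complex.norm_exp, ← Real.exp_add]
  apply Real.exp_le_exp.2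
  simp only [ofReal_zero, mul_zero, zero_mul, Complex.exp_zero, mul_one, one_mul]
  rw [Complex.sub_re, Complex.re_mul_ofReal, Complex.ofReal_re]
  have hy := Real.young_inequality_of_nonneg (a := 2 ^ κ * ‖ζ‖) (b := (x / 2) ^ κ) (by positivity)
    (by positivity) (p := 1 / (1 - κ)) (q := 1 / κ) (by
      rw [Real.holderConjugate_iff]
      constructor
      · rw [lt_div_iff₀ hσ]; linarith
      · rw [one_div, one_div, inv_inv, inv_inv]; ring)
  have e1 : ((x / 2) ^ κ) ^ (1 / κ) = x / 2 := by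
    rw [← Real.rpow_mul (by positivity), mul_one_div_cancel h0.ne', Real.rpow_one]
  have e2 : 2 ^ κ * ‖ζ‖ * (x / 2) ^ κ = ‖ζ‖ * x ^ κ := by
    rw [Real.div_rpow hx0.le (by norm_num)]
    field_simp
  rw [e1, e2, Real.mul_rpow (by positivity) (norm_nonneg _)] at hy
  have e3 : ((2:ℝ) ^ κ) ^ (1 / (1 - κ)) * ‖ζ‖ ^ (1 / (1 - κ)) / (1 / (1 - κ)) =
      C * ‖ζ‖ ^ (1 / (1 - κ)) := by
    rw [hC]; field_simp
  have e4 : x / 2 / (1 / κ) ≤ x / 2 := by
    rw [div_le_iff₀ (by positivity)]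
    have : 1 ≤ 1 / κ := by rw [le_div_iff₀ h0]; linarith
    nlinarith
  rw [e3] at hy
  have e5 : ζ.re * x ^ κ ≤ ‖ζ‖ * x ^ κ :=
    mul_le_mul_of_nonneg_right (Complex.re_le_norm ζ) (Real.rpow_nonneg hx0.le _)
  linarith

end Pool.Agent.V7H89.C2
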