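import Mathlib

/-!
Everywhere convergent power series with real coefficients: products, Cauchy estimates.
-/

set_option autoImplicit false

open Complex Set Filter Topology

namespace Pool.Agent.V7H89.C2

/-- `F z = ∑ a_k z^k` for all `z` -/
def Ser (F : ℂ → ℂ) (a : ℕ → ℝ) : Prop := ∀ z : ℂ, HasSum (fun k => (a k : ℂ) * z ^ k) (F z)

theorem Ser.diff {F : ℂ → ℂ} {a : ℕ → ℝ} (hF : Ser F a) : Differentiable ℂ F := by
  intro z
  set R : ℝ := ‖z‖ + 1 with hR
  have hR0 : 0 ≤ R := by positivity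
  have hFe : F = fun w => ∑' j, (a j : ℂ) * w ^ j := funext fun w => (hF w).tsum_eq.symm
  have hsum : Summable (fun j => |a j| * R ^ j) := by
    have := (hF (R : ℂ)).summable.norm
    refine this.congr fun j => ?_
    rw [norm_mul, norm_pow, Complex.norm_real, Complex.norm_real, Real.norm_eq_abs, Real.norm_eq_abs,
      abs_of_nonneg hR0]
  have h1 : DifferentiableOn ℂ (fun w => ∑' j, (a j : ℂ) * w ^ j) (Metric.ball 0 R) := by
    refine Complex.differentiableOn_tsum_of_summable_norm hsum (fun j => ?_) Metric.isOpen_ball fun j w hw => ?_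
    · exact (differentiable_const _).mul (differentiable_id.pow j) |>.differentiableOn
    · rw [norm_mul, norm_pow, Complex.norm_real, Real.norm_eq_abs]
      have : ‖w‖ ≤ R := (mem_ball_zero_iff.mp hw).le
      exact mul_le_mul_of_nonneg_left (pow_le_pow_left₀ (norm_nonneg _) this _) (abs_nonneg _)
  rw [hFe]
  exact (h1 z (by rw [mem_ball_zero_iff]; linarith)).differentiableAt
    (Metric.isOpen_ball.mem_nhds (by rw [mem_ball_zero_iff]; linarith))

theorem Ser.cauchy {F : ℂ → ℂ} {a : ℕ → ℝ} (hF : Ser F a) {r C : ℝ} (hr : 0 < r)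
    (hC : ∀ z : ℂ, ‖z‖ = r → ‖F z‖ ≤ C) (k : ℕ) : |a k| ≤ C / r ^ k := by
  let p : FormalMultilinearSeries ℂ ℂ ℂ := FormalMultilinearSeries.ofScalars ℂ (fun k => (a k : ℂ))
  have hp : ∀ n, p.coeff n = (a n : ℂ) := by
    intro n
    simp [p, FormalMultilinearSeries.coeff_ofScalars]
  have h1 : HasFPowerSeriesAt F p 0 := by
    rw [hasFPowerSeriesAt_iff]
    filter_upwards with z
    rw [zero_add]
    refine (hF z).congr_fun (fun n => ?_)
    rw [hp, smul_eq_mul, mul_comm]
  have hrr : (0:ℝ) ≤ r := hr.le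
  obtain ⟨r', hr'⟩ : ∃ r' : NNReal, (r' : ℝ) = r := ⟨⟨r, hrr⟩, rfl⟩
  have h2 : HasFPowerSeriesAt F (cauchyPowerSeries F 0 r) 0 := by
    have := hF.diff.hasFPowerSeriesOnBall 0 (R := r') (by
      rw [← NNReal.coe_pos, hr']; exact hr)
    rw [hr'] at this
    exact this.hasFPowerSeriesAt
  have h3 : p = cauchyPowerSeries F 0 r := h1.eq_formalMultilinearSeries h2
  have h4 := norm_cauchyPowerSeries_le F 0 r k
  rw [← h3, FormalMultilinearSeries.norm_apply_eq_norm_coef, hp, Complex.norm_real, Real.norm_eq_abs] at h4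
  refine h4.trans ?_
  have h5 : ∫ θ in (0:ℝ)..2 * Real.pi, ‖F (circleMap 0 r θ)‖ ≤ ∫ θ in (0:ℝ)..2 * Real.pi, C := by
    apply intervalIntegral.integral_mono_on (by positivity)
    · apply Continuous.intervalIntegrable
      exact (hF.diff.continuous.comp (continuous_circleMap 0 r)).norm
    · exact intervalIntegrable_const
    · intro θ _
      apply hC
      rw [norm_circleMap_zero, abs_of_pos hr]
  rw [intervalIntegral.integral_const, smul_eq_mul, sub_zero] at h5
  rw [abs_of_pos hr, div_eq_mul_inv, ← inv_pow]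
  apply mul_le_mul_of_nonneg_right _ (by positivity)
  rw [inv_mul_le_iff₀ (by positivity)]
  exact h5

theorem Ser.unique {F : ℂ → ℂ} {a b : ℕ → ℝ} (ha : Ser F a) (hb : Ser F b) (k : ℕ) : a k = b k := by
  have h : Ser (fun _ => 0) (fun k => a k - b k) := by
    intro z
    have := (ha z).sub (hb z)
    rw [sub_self] at this
    refine this.congr_fun fun k => ?_
    push_cast; ring
  have h2 := h.cauchy (r := 1) (C := 0) one_pos (fun z _ => by simp) k
  simp only [zero_div] at h2
  have := abs_nonpos_iff.1 h2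
  linarith

theorem Ser.congr {F G : ℂ → ℂ} {a : ℕ → ℝ} (hF : Ser F a) (h : ∀ z, G z = F z) : Ser G a := by
  intro z
  rw [h z]
  exact hF z

theorem Ser.add {F G : ℂ → ℂ} {a b : ℕ → ℝ} (hF : Ser F a) (hG : Ser G b) :
    Ser (fun z => F z + G z) (fun k => a k + b k) := by
  intro z
  refine ((hF z).add (hG z)).congr_fun fun k => ?_
  push_cast; ring

theorem Ser.smul {F : ℂ → ℂ} {a : ℕ → ℝ} (hF : Ser F a) (c : ℝ) :
    Ser (fun z => (c : ℂ) * F z) (fun k => c * a k) := by
  intro z
  refine ((hF z).mul_left (c : ℂ)).congr_fun fun k => ?_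
  push_cast; ring

theorem Ser.mul {F G : ℂ → ℂ} {a b : ℕ → ℝ} (hF : Ser F a) (hG : Ser G b) :
    Ser (fun z => F z * G z) (fun k => ∑ x ∈ Finset.HasAntidiagonal.antidiagonal k, a x.1 * b x.2) := by
  intro z
  have h1 := (hF z).summable.norm
  have h2 := (hG z).summable.norm
  have h3 := tsum_mul_tsum_eq_tsum_sum_antidiagonal_of_summable_norm h1 h2
  have h4 := (summable_norm_sum_mul_antidiagonal_of_summable_norm h1 h2).of_norm
  rw [(hF z).tsum_eq, (hG z).tsum_eq] at h3
  have h5 := h4.hasSum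
  rw [← h3] at h5
  refine h5.congr_fun fun k => ?_
  push_cast
  rw [Finset.sum_mul]
  apply Finset.sum_congr rfl
  intro x hx
  rw [Finset.HasAntidiagonal.mem_antidiagonal] at hx
  rw [← hx, pow_add]
  ring

theorem Ser.comp_pow {F : ℂ → ℂ} {a : ℕ → ℝ} (hF : Ser F a) {N : ℕ} (hN : 0 < N) :
    Ser (fun z => F (z ^ N)) (fun k => if N ∣ k then a (k / N) else 0) := by
  intro z
  have hinj : Function.Injective (fun k : ℕ => N * k) := fun x y h => Nat.eq_of_mul_eq_mul_left hN h
  have h := hF (z ^ N)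
  rw [← hinj.hasSum_iff]
  · refine h.congr_fun fun k => ?_
    simp only [Function.comp]
    rw [if_pos (Dvd.intro k rfl), Nat.mul_div_cancel_left k hN, ← pow_mul]
  · intro x hx
    have : ¬ N ∣ x := by
      rintro ⟨k, rfl⟩
      exact hx ⟨k, rfl⟩
    simp only
    rw [if_neg this]
    simp

theorem ser_exp : Ser Complex.exp (fun k => 1 / (k.factorial : ℝ)) := by
  intro z
  rw [Complex.exp_eq_exp_ℂ]
  refine (NormedSpace.expSeries_div_hasSum_exp z).congr_fun fun k => ?_
  push_cast
  ring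

theorem ser_one : Ser (fun _ => 1) (fun k => if k = 0 then 1 else 0) := by
  intro z
  have h := hasSum_single (f := fun k : ℕ => (((if k = 0 then 1 else 0 : ℝ)) : ℂ) * z ^ k) 0 (by
    intro k hk
    simp [hk])
  simpa using h

/-- monomials -/
theorem ser_pow (m : ℕ) : Ser (fun z => z ^ m) (fun k => if k = m then 1 else 0) := by
  intro z
  have h := hasSum_single (f := fun k : ℕ => (((if k = m then 1 else 0 : ℝ)) : ℂ) * z ^ k) m (by
    intro k hk
    simp [hk])
  simpa using h

/-- the double exponential has nonnegative coefficients, the constant one positive -/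
theorem ser_expexp : ∃ b : ℕ → ℝ, (∀ k, 0 ≤ b k) ∧ 0 < b 0 ∧ Ser (fun w => Complex.exp (Complex.exp w)) b := by
  -- the double family
  have hsum : ∀ w : ℂ, Summable (fun x : ℕ × ℕ => ((1 / (x.1.factorial : ℝ) : ℝ) : ℂ) *
      (((x.1 : ℂ) * w) ^ x.2 / (x.2.factorial : ℂ))) := by
    intro w
    apply Summable.of_norm
    rw [summable_prod_of_nonneg (fun _ => norm_nonneg _)]
    have e1 : ∀ m k : ℕ, ‖((1 / (m.factorial : ℝ) : ℝ) : ℂ) * (((m : ℂ) * w) ^ k / (k.factorial : ℂ))‖ =
        1 / (m.factorial : ℝ) * (((m : ℝ) * ‖w‖) ^ k / (k.factorial : ℝ)) := by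
      intro m k
      rw [norm_mul, norm_div, norm_pow, norm_mul, Complex.norm_real, Complex.norm_natCast, Complex.norm_natCast,
        Real.norm_of_nonneg (by positivity)]
    have e2 : ∀ m : ℕ, HasSum (fun k : ℕ => 1 / (m.factorial : ℝ) * (((m : ℝ) * ‖w‖) ^ k / (k.factorial : ℝ)))
        (1 / (m.factorial : ℝ) * Real.exp (m * ‖w‖)) := by
      intro m
      apply HasSum.mul_left
      rw [Real.exp_eq_exp_ℝ]
      exact NormedSpace.expSeries_div_hasSum_exp _
    constructor
    · intro m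
      simp only [e1]
      exact (e2 m).summable
    · simp only [e1]
      simp_rw [(e2 _).tsum_eq]
      have : Summable (fun m : ℕ => (Real.exp ‖w‖) ^ m / (m.factorial : ℝ)) :=
        Real.summable_pow_div_factorial _
      refine this.congr fun m => ?_
      rw [← Real.exp_nat_mul]
      ring
  have hsw : ∀ w : ℂ, HasSum (fun m : ℕ => ((1 / (m.factorial : ℝ) : ℝ) : ℂ) * Complex.exp (m * w))
      (Complex.exp (Complex.exp w)) := by
    intro w
    have h := ser_exp (Complex.exp w)
    refine h.congr_fun fun m => ?_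
    rw [← Complex.exp_nat_mul]
  have hrow : ∀ (w : ℂ) (m : ℕ), HasSum (fun k : ℕ => ((1 / (m.factorial : ℝ) : ℝ) : ℂ) *
      (((m : ℂ) * w) ^ k / (k.factorial : ℂ))) (((1 / (m.factorial : ℝ) : ℝ) : ℂ) * Complex.exp (m * w)) := by
    intro w m
    apply HasSum.mul_left
    rw [Complex.exp_eq_exp_ℂ]
    exact NormedSpace.expSeries_div_hasSum_exp _
  have htot : ∀ w : ℂ, HasSum (fun x : ℕ × ℕ => ((1 / (x.1.factorial : ℝ) : ℝ) : ℂ) *
      (((x.1 : ℂ) * w) ^ x.2 / (x.2.factorial : ℂ))) (Complex.exp (Complex.exp w)) := by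
    intro w
    have h := (hsum w).hasSum
    have h2 := h.prod_fiberwise (fun m => hrow w m)
    rwa [h2.unique (hsw w)] at h
  have hcol : ∀ k : ℕ, Summable (fun m : ℕ => (1 / (m.factorial : ℝ)) * ((m : ℝ) ^ k / (k.factorial : ℝ))) := by
    intro k
    have h1 := ((hsum 1).prod_symm.prod_factor k).norm
    refine h1.congr fun m => ?_
    simp only [Prod.swap]
    rw [norm_mul, norm_div, norm_pow, norm_mul, Complex.norm_real, Complex.norm_natCast, Complex.norm_natCast,
        Real.norm_of_nonneg (by positivity), norm_one, mul_one]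
  refine ⟨fun k => ∑' m : ℕ, (1 / (m.factorial : ℝ)) * ((m : ℝ) ^ k / (k.factorial : ℝ)), fun k => ?_, ?_, ?_⟩
  · exact tsum_nonneg fun m => by positivity
  · apply (hcol 0).tsum_pos (fun m => by positivity) 0
    simp
  · intro w
    have h := (htot w)
    have h2 : HasSum (fun x : ℕ × ℕ => ((1 / (x.2.factorial : ℝ) : ℝ) : ℂ) *
      (((x.2 : ℂ) * w) ^ x.1 / (x.1.factorial : ℂ))) (Complex.exp (Complex.exp w)) := by
      have := (Equiv.prodComm ℕ ℕ).hasSum_iff.2 h
      exact this
    refine h2.prod_fiberwise fun k => ?_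
    have h3 := (hcol k).hasSum
    have h4 := (Complex.hasSum_ofReal.2 h3).mul_right (w ^ k)
    refine h4.congr_fun fun m => ?_
    simp only [mul_pow]
    push_cast
    ring

end Pool.Agent.V7H89.C2
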