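import Mathlib
import Pool.Agent.V7H89.C2.E
import Pool.Agent.V7H89.C2.Ser

/-!
The functions `p_j`, whose Taylor coefficients vanish in the classes `1, …, j` modulo `N`.
-/

set_option autoImplicit false

open Complex Set Filter Topology

namespace Pool.Agent.V7H89.C2

/-- Taylor coefficients of `p_j` -/
noncomputable def Pc (N : ℕ) (κ : ℝ) : ℕ → ℕ → ℝ
  | 0, k => (-1) ^ k * ek κ k
  | (j + 1), k => Real.sin (Real.pi * ((k : ℝ) - (j + 1)) / N) * Pc N κ j k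

theorem Pc_succ (N : ℕ) (κ : ℝ) (j k : ℕ) :
    Pc N κ (j + 1) k = Real.sin (Real.pi * ((k : ℝ) - (j + 1)) / N) * Pc N κ j k := rfl

theorem Pc_abs {N : ℕ} {κ : ℝ} (h0 : 0 < κ) (j k : ℕ) : |Pc N κ j k| ≤ ek κ k := by
  induction j with
  | zero =>
    unfold Pc
    rw [abs_mul, abs_pow, abs_neg, abs_one, one_pow, one_mul, abs_of_pos (ek_pos h0 k)]
  | succ j ih =>
    unfold Pc
    rw [abs_mul]
    calc _ ≤ 1 * ek κ k := mul_le_mul (Real.abs_sin_le_one _) ih (abs_nonneg _) zero_le_one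
      _ = _ := one_mul _

/-- `p_j` -/
noncomputable def pf (N : ℕ) (κ : ℝ) (j : ℕ) (z : ℂ) : ℂ := ∑' k : ℕ, (Pc N κ j k : ℂ) * z ^ k

theorem pf_ser {N : ℕ} {κ : ℝ} (h0 : 0 < κ) (h1 : κ < 1) (j : ℕ) : Ser (pf N κ j) (Pc N κ j) := by
  intro z
  apply Summable.hasSum
  apply Summable.of_norm
  refine Summable.of_nonneg_of_le (fun _ => norm_nonneg _) (fun k => ?_) (summable_ek h0 h1 ‖z‖ (norm_nonneg z))
  rw [norm_mul, norm_pow, Complex.norm_real, Real.norm_eq_abs]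
  exact mul_le_mul_of_nonneg_right (Pc_abs h0 j k) (by positivity)

theorem pf_zero {N : ℕ} {κ : ℝ} (h0 : 0 < κ) (h1 : κ < 1) (z : ℂ) : pf N κ 0 z = E κ (-z) := by
  refine (pf_ser h0 h1 0 z).unique ?_
  refine (E_hasSum h0 h1 (-z)).congr_fun fun k => ?_
  unfold Pc
  rw [neg_pow]
  push_cast
  ring

theorem pf_succ {N : ℕ} {κ : ℝ} (h0 : 0 < κ) (h1 : κ < 1) (j : ℕ) (z : ℂ) :
    pf N κ (j + 1) z = 1 / (2 * I) * (Complex.exp (((-(Real.pi * (j + 1) / N) : ℝ) : ℂ) * I) *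
      pf N κ j (Complex.exp (((Real.pi / N : ℝ) : ℂ) * I) * z) -
      Complex.exp (((Real.pi * (j + 1) / N : ℝ) : ℂ) * I) *
      pf N κ j (Complex.exp (((-(Real.pi / N) : ℝ) : ℂ) * I) * z)) := by
  refine (pf_ser h0 h1 (j + 1) z).unique ?_
  have ha := (pf_ser (N := N) h0 h1 j (Complex.exp (((Real.pi / N : ℝ) : ℂ) * I) * z)).mul_left
    (Complex.exp (((-(Real.pi * (j + 1) / N) : ℝ) : ℂ) * I))
  have hb := (pf_ser (N := N) h0 h1 j (Complex.exp (((-(Real.pi / N) : ℝ) : ℂ) * I) * z)).mul_left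
    (Complex.exp (((Real.pi * (j + 1) / N : ℝ) : ℂ) * I))
  refine ((ha.sub hb).mul_left (1 / (2 * I))).congr_fun fun k => ?_
  have e1 : ((Real.sin (Real.pi * ((k : ℝ) - (j + 1)) / N) : ℝ) : ℂ) = 1 / (2 * I) *
      (Complex.exp (((-(Real.pi * (j + 1) / N) : ℝ) : ℂ) * I) * Complex.exp (((Real.pi / N : ℝ) : ℂ) * I) ^ k -
      Complex.exp (((Real.pi * (j + 1) / N : ℝ) : ℂ) * I) * Complex.exp (((-(Real.pi / N) : ℝ) : ℂ) * I) ^ k) := by
    rw [← Complex.exp_nat_mul, ← Complex.exp_nat_mul, ← Complex.exp_add, ← Complex.exp_add, Complex.ofReal_sin,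
      Complex.sin]
    have e2 : -((Real.pi * ((k : ℝ) - (j + 1)) / N : ℝ) : ℂ) * I =
        ((Real.pi * (j + 1) / N : ℝ) : ℂ) * I + (k : ℂ) * (((-(Real.pi / N) : ℝ) : ℂ) * I) := by
      push_cast; ring
    have e3 : ((Real.pi * ((k : ℝ) - (j + 1)) / N : ℝ) : ℂ) * I =
        ((-(Real.pi * (j + 1) / N) : ℝ) : ℂ) * I + (k : ℂ) * (((Real.pi / N : ℝ) : ℂ) * I) := by
      push_cast; ring
    rw [e2, e3]
    have hXY : ∀ X Y : ℂ, (X - Y) * I / 2 = 1 / (2 * I) * (Y - X) := by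
      intro X Y
      have hI : I * I = -1 := Complex.I_mul_I
      have hI0 : I ≠ 0 := Complex.I_ne_zero
      field_simp
      linear_combination (X - Y) * hI
    exact hXY _ _
  rw [Pc_succ, Complex.ofReal_mul, e1, mul_pow, mul_pow]
  ring

/-- `E` is bounded outside a sector around the positive axis -/
theorem E_sector {κ β : ℝ} (h0 : 0 < κ) (h1 : κ < 1) (hβ : (1 - κ) * Real.pi / 2 < β) (hβ2 : β ≤ Real.pi / 2) :
    ∃ C : ℝ, 0 < C ∧ ∀ (r : ℝ), 0 ≤ r → ∀ ψ : ℝ, β ≤ ψ → ψ ≤ 2 * Real.pi - β →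
      ‖E κ ((r : ℂ) * Complex.exp ((ψ : ℂ) * I))‖ ≤ C := by
  have hpi := Real.pi_pos
  have hβ0 : 0 < β := by
    have : 0 < (1 - κ) * Real.pi / 2 := by
      have : 0 < 1 - κ := by linarith
      positivity
    linarith
  set φ : ℝ := (Real.pi / 2 - β) / κ with hφ
  have hφ0 : 0 ≤ φ := div_nonneg (by linarith) h0.le
  have hφ1 : φ < Real.pi / 2 := by
    rw [hφ, div_lt_iff₀ h0]; linarith
  have hκφ : κ * φ = Real.pi / 2 - β := by rw [hφ]; field_simp
  have habs : |φ| < Real.pi / 2 := by rw [abs_of_nonneg hφ0]; exact hφ1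
  have habs' : |-φ| < Real.pi / 2 := by rw [abs_neg]; exact habs
  have habs0 : |(0:ℝ)| < Real.pi / 2 := by rw [abs_zero]; positivity
  have hcos : 0 < Real.cos φ := Real.cos_pos_of_mem_Ioo ⟨by linarith, hφ1⟩
  have hre : ∀ (r ψ φ' : ℝ), ((r : ℂ) * Complex.exp ((ψ : ℂ) * I) * Complex.exp ((κ : ℂ) * (φ' : ℂ) * I)).re =
      r * Real.cos (ψ + κ * φ') := by
    intro r ψ φ'
    rw [mul_assoc, ← Complex.exp_add, Complex.re_ofReal_mul,
      show (ψ : ℂ) * I + (κ : ℂ) * (φ' : ℂ) * I = ((ψ + κ * φ' : ℝ) : ℂ) * I by push_cast; ring,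
      Complex.exp_ofReal_mul_I_re]
  refine ⟨1 / Real.cos φ, by positivity, fun r hr ψ hψ1 hψ2 => ?_⟩
  have hc1 : 1 ≤ 1 / Real.cos φ := by
    rw [le_div_iff₀ hcos]; linarith [Real.cos_le_one φ]
  rcases le_or_gt ψ (Real.pi / 2) with h | h
  · apply E_bound h0 h1 habs
    rw [hre]
    apply mul_nonpos_of_nonneg_of_nonpos hr
    apply Real.cos_nonpos_of_pi_div_two_le_of_le
    · linarith
    · linarith
  rcases le_or_gt ψ (3 * Real.pi / 2) with h' | h'
  · have := E_bound h0 h1 habs0 (ζ := (r : ℂ) * Complex.exp ((ψ : ℂ) * I)) (by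
      rw [hre]
      apply mul_nonpos_of_nonneg_of_nonpos hr
      apply Real.cos_nonpos_of_pi_div_two_le_of_le
      · linarith
      · linarith)
    rw [Real.cos_zero, div_one] at this
    linarith
  · have := E_bound h0 h1 habs' (ζ := (r : ℂ) * Complex.exp ((ψ : ℂ) * I)) (by
      rw [hre]
      apply mul_nonpos_of_nonneg_of_nonpos hr
      apply Real.cos_nonpos_of_pi_div_two_le_of_le
      · linarith
      · linarith)
    rwa [Real.cos_neg] at this

/-- a power with smaller exponent is dominated -/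
theorem pow_dom {s C c : ℝ} {N : ℕ} (hs : 0 < s) (hsN : s < N) (hC : 0 ≤ C) (hc : 0 < c) :
    ∃ K : ℝ, 0 ≤ K ∧ ∀ r : ℝ, 0 ≤ r → C * r ^ s ≤ c * r ^ N + K := by
  have h1 : Tendsto (fun r : ℝ => r ^ ((N:ℝ) - s)) atTop atTop := tendsto_rpow_atTop (by linarith)
  obtain ⟨R, hR⟩ := (h1.eventually_ge_atTop (C / c)).exists_forall_of_atTop
  set R' := max R 1 with hR'
  have hR'1 : 1 ≤ R' := le_max_right _ _
  refine ⟨C * R' ^ s, by positivity, fun r hr => ?_⟩
  rcases le_or_gt r R' with h | h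
  · have h2 : r ^ s ≤ R' ^ s := Real.rpow_le_rpow hr h hs.le
    have h3 : C * r ^ s ≤ C * R' ^ s := mul_le_mul_of_nonneg_left h2 hC
    have h4 : 0 ≤ c * r ^ N := by positivity
    linarith
  · have hr0 : 0 < r := by linarith
    have h2 := hR r ((le_max_left _ _).trans h.le)
    rw [div_le_iff₀ hc] at h2
    have h3 : r ^ ((N:ℝ) - s) * r ^ s = r ^ N := by
      rw [← Real.rpow_add hr0, sub_add_cancel, Real.rpow_natCast]
    have h4 : 0 < r ^ s := Real.rpow_pos_of_pos hr0 s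
    have h5 : C * r ^ s ≤ c * r ^ N := by
      rw [← h3]; nlinarith
    have h6 : 0 ≤ C * R' ^ s := by positivity
    linarith

/-- `E` is of size at most `exp (|ζ|^N + Re ζ^N)` -/
theorem E_global {κ β : ℝ} {N : ℕ} (hN : 2 ≤ N) (h0 : 0 < κ) (h1 : κ < 1)
    (hβ : (1 - κ) * Real.pi / 2 < β) (hβN : β < Real.pi / N) (hκN : 1 < (1 - κ) * N) :
    ∃ C : ℝ, 0 < C ∧ ∀ ζ : ℂ, ‖E κ ζ‖ ≤ C * Real.exp (‖ζ‖ ^ N + (ζ ^ N).re) := by
  have hpi := Real.pi_pos
  have hN2 : (2:ℝ) ≤ N := by exact_mod_cast hN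
  have hN0 : (0:ℝ) < N := by linarith
  have hσ : 0 < 1 - κ := by linarith
  have hβ2 : β ≤ Real.pi / 2 := by
    refine hβN.le.trans ?_
    exact div_le_div_of_nonneg_left hpi.le (by norm_num) hN2
  have hβ0 : 0 < β := by
    have : 0 < (1 - κ) * Real.pi / 2 := by positivity
    linarith
  obtain ⟨C1, hC1, hE1⟩ := E_sector h0 h1 hβ hβ2
  obtain ⟨C2, hC2, hE2⟩ := E_growth h0 h1
  have hNβ : N * β < Real.pi := by
    rw [lt_div_iff₀ hN0] at hβN; linarith
  set c := 1 + Real.cos (N * β) with hc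
  have hc0 : 0 < c := by
    have : Real.cos Real.pi < Real.cos (N * β) :=
      Real.cos_lt_cos_of_nonneg_of_le_pi (by positivity) le_rfl hNβ
    rw [Real.cos_pi] at this
    linarith
  obtain ⟨K, hK0, hK⟩ := pow_dom (s := 1 / (1 - κ)) (N := N) (by positivity)
    (by rw [div_lt_iff₀ hσ]; linarith) hC2.le hc0
  refine ⟨max C1 (2 * Real.exp K), by positivity, fun ζ => ?_⟩
  have hrep : ζ = (‖ζ‖ : ℂ) * Complex.exp ((ζ.arg : ℂ) * I) := (Complex.norm_mul_exp_arg_mul_I ζ).symm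
  have hpow : ζ ^ N = ((‖ζ‖ ^ N : ℝ) : ℂ) * Complex.exp (((N * ζ.arg : ℝ) : ℂ) * I) := by
    conv_lhs => rw [hrep]
    rw [mul_pow, ← Complex.exp_nat_mul]
    push_cast
    ring_nf
  have hre : (ζ ^ N).re = ‖ζ‖ ^ N * Real.cos (N * ζ.arg) := by
    rw [hpow, Complex.re_ofReal_mul, Complex.exp_ofReal_mul_I_re]
  have hnonneg : 0 ≤ ‖ζ‖ ^ N + (ζ ^ N).re := by
    have := Complex.abs_re_le_norm (ζ ^ N)
    rw [norm_pow] at this
    linarith [(abs_le.1 this).1]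
  have hone : 1 ≤ Real.exp (‖ζ‖ ^ N + (ζ ^ N).re) := Real.one_le_exp hnonneg
  rcases le_or_gt β |ζ.arg| with h | h
  · have hle : ‖E κ ζ‖ ≤ C1 := by
      rcases le_total 0 ζ.arg with h' | h'
      · rw [abs_of_nonneg h'] at h
        have := hE1 ‖ζ‖ (norm_nonneg _) ζ.arg h (by linarith [Complex.arg_le_pi ζ])
        rwa [← hrep] at this
      · rw [abs_of_nonpos h'] at h
        have := hE1 ‖ζ‖ (norm_nonneg _) (ζ.arg + 2 * Real.pi) (by linarith [Complex.neg_pi_lt_arg ζ]) (by linarith)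
        have e1 : Complex.exp (((ζ.arg + 2 * Real.pi : ℝ) : ℂ) * I) = Complex.exp ((ζ.arg : ℂ) * I) := by
          push_cast
          rw [add_mul, Complex.exp_add, Complex.exp_two_pi_mul_I, mul_one]
        rw [e1, ← hrep] at this
        exact this
    calc ‖E κ ζ‖ ≤ C1 * 1 := by linarith
      _ ≤ max C1 (2 * Real.exp K) * Real.exp (‖ζ‖ ^ N + (ζ ^ N).re) :=
        mul_le_mul (le_max_left _ _) hone zero_le_one (by positivity)
  · have hcosge : Real.cos (N * β) ≤ Real.cos (N * ζ.arg) := by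
      rw [← Real.cos_abs (N * ζ.arg), abs_mul, abs_of_pos hN0]
      exact Real.cos_le_cos_of_nonneg_of_le_pi (by positivity) hNβ.le
        (mul_le_mul_of_nonneg_left h.le hN0.le)
    have hexp : c * ‖ζ‖ ^ N ≤ ‖ζ‖ ^ N + (ζ ^ N).re := by
      rw [hre, hc]
      have : 0 ≤ ‖ζ‖ ^ N := by positivity
      nlinarith
    calc ‖E κ ζ‖ ≤ 2 * Real.exp (C2 * ‖ζ‖ ^ (1 / (1 - κ))) := hE2 ζ
      _ ≤ 2 * Real.exp (‖ζ‖ ^ N + (ζ ^ N).re + K) := by
        apply mul_le_mul_of_nonneg_left _ (by norm_num)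
        apply Real.exp_le_exp.2
        have := hK ‖ζ‖ (norm_nonneg _)
        linarith
      _ = (2 * Real.exp K) * Real.exp (‖ζ‖ ^ N + (ζ ^ N).re) := by rw [Real.exp_add]; ring
      _ ≤ _ := mul_le_mul_of_nonneg_right (le_max_right _ _) (by positivity)

/-- `p_j` is bounded in a sector around the positive axis -/
theorem pf_sector {κ β C : ℝ} {N : ℕ} (h0 : 0 < κ) (h1 : κ < 1)
    (hE : ∀ (r : ℝ), 0 ≤ r → ∀ ψ : ℝ, β ≤ ψ → ψ ≤ 2 * Real.pi - β →
      ‖E κ ((r : ℂ) * Complex.exp ((ψ : ℂ) * I))‖ ≤ C) (j : ℕ) :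
    ∀ (r : ℝ), 0 ≤ r → ∀ θ : ℝ, |θ| ≤ Real.pi - β - j * (Real.pi / N) →
      ‖pf N κ j ((r : ℂ) * Complex.exp ((θ : ℂ) * I))‖ ≤ C := by
  induction j with
  | zero =>
    intro r hr θ hθ
    have h2 := abs_le.1 hθ
    simp only [Nat.cast_zero, zero_mul, sub_zero] at h2
    have := hE r hr (θ + Real.pi) (by linarith) (by linarith)
    rw [pf_zero h0 h1]
    have e1 : -((r : ℂ) * Complex.exp ((θ : ℂ) * I)) = (r : ℂ) * Complex.exp (((θ + Real.pi : ℝ) : ℂ) * I) := by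
      push_cast
      rw [add_mul, Complex.exp_add, Complex.exp_pi_mul_I]
      ring
    rw [e1]
    exact this
  | succ j ih =>
    intro r hr θ hθ
    have hpiN : 0 ≤ Real.pi / N := by positivity
    have h2 := abs_le.1 hθ
    push_cast at h2
    rw [pf_succ h0 h1, norm_mul]
    have e0 : ‖(1:ℂ) / (2 * I)‖ = 1 / 2 := by
      rw [norm_div, norm_mul, Complex.norm_I, norm_one, mul_one]; norm_num
    have e1 : Complex.exp (((Real.pi / N : ℝ) : ℂ) * I) * ((r : ℂ) * Complex.exp ((θ : ℂ) * I)) =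
        (r : ℂ) * Complex.exp (((θ + Real.pi / N : ℝ) : ℂ) * I) := by
      push_cast
      rw [add_mul, Complex.exp_add]
      ring
    have e2 : Complex.exp (((-(Real.pi / N) : ℝ) : ℂ) * I) * ((r : ℂ) * Complex.exp ((θ : ℂ) * I)) =
        (r : ℂ) * Complex.exp (((θ - Real.pi / N : ℝ) : ℂ) * I) := by
      push_cast
      rw [sub_eq_add_neg, add_mul, Complex.exp_add]
      ring
    rw [e0, e1, e2]
    have b1 := ih r hr (θ + Real.pi / N) (abs_le.2 ⟨by nlinarith, by nlinarith⟩)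
    have b2 := ih r hr (θ - Real.pi / N) (abs_le.2 ⟨by nlinarith, by nlinarith⟩)
    have := norm_sub_le (Complex.exp (((-(Real.pi * (j + 1) / N) : ℝ) : ℂ) * I) *
      pf N κ j ((r : ℂ) * Complex.exp (((θ + Real.pi / N : ℝ) : ℂ) * I)))
      (Complex.exp (((Real.pi * (j + 1) / N : ℝ) : ℂ) * I) *
      pf N κ j ((r : ℂ) * Complex.exp (((θ - Real.pi / N : ℝ) : ℂ) * I)))
    rw [norm_mul, norm_mul, Complex.norm_exp_ofReal_mul_I, Complex.norm_exp_ofReal_mul_I, one_mul, one_mul] at this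
    linarith

/-- global bound for `p_j` -/
theorem pf_global {κ C : ℝ} {N : ℕ} (hN : 2 ≤ N) (h0 : 0 < κ) (h1 : κ < 1)
    (hE : ∀ ζ : ℂ, ‖E κ ζ‖ ≤ C * Real.exp (‖ζ‖ ^ N + (ζ ^ N).re)) (j : ℕ) :
    ∀ z : ℂ, ‖pf N κ j z‖ ≤ C * Real.exp (‖z‖ ^ N + (-1) ^ (N + j) * (z ^ N).re) := by
  induction j with
  | zero =>
    intro z
    rw [pf_zero h0 h1]
    refine (hE (-z)).trans (le_of_eq ?_)
    rw [norm_neg, neg_pow, add_zero]
    congr 3
    rcases neg_one_pow_eq_or ℂ N with h | h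
    · rcases Nat.even_or_odd N with h' | h'
      · rw [h'.neg_one_pow, h'.neg_one_pow, one_mul, one_mul]
      · rw [h'.neg_one_pow] at h
        norm_num at h
    · rcases Nat.even_or_odd N with h' | h'
      · rw [h'.neg_one_pow] at h
        norm_num at h
      · rw [h'.neg_one_pow, h'.neg_one_pow]
        simp
  | succ j ih =>
    intro z
    have hN0 : (N:ℂ) ≠ 0 := by exact_mod_cast (by omega : N ≠ 0)
    rw [pf_succ h0 h1, norm_mul]
    have e0 : ‖(1:ℂ) / (2 * I)‖ = 1 / 2 := by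
      rw [norm_div, norm_mul, Complex.norm_I, norm_one, mul_one]; norm_num
    have p1 : (Complex.exp (((Real.pi / N : ℝ) : ℂ) * I)) ^ N = -1 := by
      rw [← Complex.exp_nat_mul]
      push_cast
      rw [show (N:ℂ) * ((Real.pi : ℂ) / N * I) = Real.pi * I by field_simp, Complex.exp_pi_mul_I]
    have p2 : (Complex.exp (((-(Real.pi / N) : ℝ) : ℂ) * I)) ^ N = -1 := by
      rw [← Complex.exp_nat_mul]
      push_cast
      rw [show (N:ℂ) * (-((Real.pi : ℂ) / N) * I) = -(Real.pi * I) by field_simp, Complex.exp_neg,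
        Complex.exp_pi_mul_I]
      norm_num
    have b1 := ih (Complex.exp (((Real.pi / N : ℝ) : ℂ) * I) * z)
    have b2 := ih (Complex.exp (((-(Real.pi / N) : ℝ) : ℂ) * I) * z)
    rw [norm_mul, Complex.norm_exp_ofReal_mul_I, one_mul, mul_pow, p1] at b1
    rw [norm_mul, Complex.norm_exp_ofReal_mul_I, one_mul, mul_pow, p2] at b2
    have e3 : (-1 : ℝ) ^ (N + j) * ((-1 : ℂ) * z ^ N).re = (-1) ^ (N + (j + 1)) * (z ^ N).re := by
      rw [neg_one_mul, Complex.neg_re, ← add_assoc, pow_succ]; ring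
    rw [e3] at b1 b2
    have := norm_sub_le (Complex.exp (((-(Real.pi * (j + 1) / N) : ℝ) : ℂ) * I) *
      pf N κ j (Complex.exp (((Real.pi / N : ℝ) : ℂ) * I) * z))
      (Complex.exp (((Real.pi * (j + 1) / N : ℝ) : ℂ) * I) *
      pf N κ j (Complex.exp (((-(Real.pi / N) : ℝ) : ℂ) * I) * z))
    rw [norm_mul (Complex.exp _), norm_mul (Complex.exp _), Complex.norm_exp_ofReal_mul_I,
      Complex.norm_exp_ofReal_mul_I, one_mul, one_mul] at this
    rw [e0]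
    linarith

end Pool.Agent.V7H89.C2
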