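import Mathlib

/-!
An entire function of finite order, of polynomial size in a sector and not a polynomial, has
infinitely many zeros.
-/

set_option autoImplicit false

open Complex Set Filter Topology Metric

namespace Pool.Agent.V7H89.C2

/-- extended Liouville theorem -/
theorem poly_of_growth (m : ℕ) : ∀ (f : ℂ → ℂ), Differentiable ℂ f →
    (∃ C : ℝ, ∀ z, ‖f z‖ ≤ C * (1 + ‖z‖) ^ m) → ∃ P : Polynomial ℂ, ∀ z, f z = P.eval z := by
  induction m with
  | zero =>
    rintro f hf ⟨C, hC⟩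
    refine ⟨Polynomial.C (f 0), fun z => ?_⟩
    rw [Polynomial.eval_C]
    apply hf.apply_eq_apply_of_bounded
    rw [isBounded_iff_forall_norm_le]
    refine ⟨C, ?_⟩
    rintro _ ⟨w, rfl⟩
    simpa using hC w
  | succ m ih =>
    rintro f hf ⟨C, hC⟩
    have hd : Differentiable ℂ (dslope f 0) := by
      rw [← differentiableOn_univ] at hf ⊢
      exact (Complex.differentiableOn_dslope univ_mem).2 hf
    have hf0 : ∀ z, f z = z * dslope f 0 z + f 0 := by
      intro z
      have h := sub_smul_dslope f 0 z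
      rw [sub_zero, smul_eq_mul] at h
      rw [h]; ring
    obtain ⟨K, hK⟩ := (isCompact_closedBall (0:ℂ) 1).exists_bound_of_continuousOn hd.continuous.continuousOn
    have hC0 : 0 ≤ C := by
      have := (norm_nonneg _).trans (hC 0)
      simpa using this
    have hK0 : 0 ≤ K := (norm_nonneg _).trans (hK 0 (by simp))
    have hbound : ∀ z, ‖dslope f 0 z‖ ≤ (2 * C + ‖f 0‖ + K) * (1 + ‖z‖) ^ m := by
      intro z
      have h1 : (1:ℝ) ≤ (1 + ‖z‖) ^ m := one_le_pow₀ (by linarith [norm_nonneg z])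
      rcases le_or_gt ‖z‖ 1 with h | h
      · have := hK z (by rw [mem_closedBall_zero_iff]; exact h)
        have h2 : K * 1 ≤ K * (1 + ‖z‖) ^ m := mul_le_mul_of_nonneg_left h1 hK0
        have h3 : 0 ≤ (2 * C + ‖f 0‖) * (1 + ‖z‖) ^ m := by positivity
        linarith
      · have hz0 : z ≠ 0 := by
          intro hz; rw [hz, norm_zero] at h; linarith
        have h2 : z * dslope f 0 z = f z - f 0 := by rw [hf0 z]; ring
        have h3 : ‖z‖ * ‖dslope f 0 z‖ ≤ C * (1 + ‖z‖) ^ (m + 1) + ‖f 0‖ := by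
          rw [← norm_mul, h2]
          exact (norm_sub_le _ _).trans (by linarith [hC z])
        have h4 : C * (1 + ‖z‖) ^ (m + 1) ≤ C * (1 + ‖z‖) ^ m * (2 * ‖z‖) := by
          rw [pow_succ, ← mul_assoc]
          apply mul_le_mul_of_nonneg_left _ (by positivity)
          linarith
        have h5 : ‖f 0‖ ≤ ‖f 0‖ * ((1 + ‖z‖) ^ m * ‖z‖) := by
          apply le_mul_of_one_le_right (norm_nonneg _)
          nlinarith
        have h6 : ‖z‖ * ‖dslope f 0 z‖ ≤ ‖z‖ * ((2 * C + ‖f 0‖) * (1 + ‖z‖) ^ m) := by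
          nlinarith
        have h7 := le_of_mul_le_mul_left h6 (by linarith)
        have h8 : 0 ≤ K * (1 + ‖z‖) ^ m := by positivity
        linarith
    obtain ⟨P, hP⟩ := ih (dslope f 0) hd ⟨_, hbound⟩
    refine ⟨Polynomial.X * P + Polynomial.C (f 0), fun z => ?_⟩
    rw [hf0 z, hP z]
    simp

/-- division by the full power at a point -/
theorem div_pow (m : ℕ) : ∀ (f : ℂ → ℂ), Differentiable ℂ f → ∀ a : ℂ, analyticOrderAt f a = m →
    ∃ h : ℂ → ℂ, Differentiable ℂ h ∧ h a ≠ 0 ∧ ∀ z, f z = (z - a) ^ m * h z := by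
  induction m with
  | zero =>
    intro f hf a ha
    refine ⟨f, hf, ?_, fun z => by simp⟩
    have := (hf.analyticAt a).analyticOrderAt_eq_zero.1 (by simpa using ha)
    exact this
  | succ m ih =>
    intro f hf a ha
    have hfa : f a = 0 := by
      by_contra hne
      have := (hf.analyticAt a).analyticOrderAt_eq_zero.2 hne
      rw [this] at ha
      have h2 : ((0 : ℕ) : ℕ∞) = ((m + 1 : ℕ) : ℕ∞) := by simpa using ha
      have h3 := Nat.cast_injective h2
      omega
    have hd : Differentiable ℂ (dslope f a) := by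
      rw [← differentiableOn_univ] at hf ⊢
      exact (Complex.differentiableOn_dslope univ_mem).2 hf
    have hf0 : ∀ z, f z = (z - a) * dslope f a z := by
      intro z
      have h := sub_smul_dslope f a z
      rw [hfa, sub_zero, smul_eq_mul] at h
      exact h.symm
    have hord : analyticOrderAt (dslope f a) a = m := by
      have h1 : f = (fun z => z - a) * dslope f a := by
        funext z; exact hf0 z
      have h2 : AnalyticAt ℂ (fun z : ℂ => z - a) a := by fun_prop
      have h3 := analyticOrderAt_mul h2 (hd.analyticAt a)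
      rw [← h1, ha] at h3
      have h4 : analyticOrderAt (fun z : ℂ => z - a) a = 1 := by
        have h5 : ((1 : ℕ) : ℕ∞) = 1 := rfl
        rw [← h5, h2.analyticOrderAt_eq_natCast]
        refine ⟨fun _ => 1, analyticAt_const, one_ne_zero, ?_⟩
        filter_upwards with z
        simp
      rw [h4] at h3
      push_cast at h3
      rw [add_comm] at h3
      exact (ENat.add_right_injective_of_ne_top (by simp) h3).symm
    obtain ⟨h, hh, hha, hhf⟩ := ih (dslope f a) hd a hord
    refine ⟨h, hh, hha, fun z => ?_⟩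
    rw [hf0 z, hhf z]; ring

/-- division by a polynomial carrying all zeros -/
theorem div_all (S : Finset ℂ) : ∀ (f : ℂ → ℂ), Differentiable ℂ f → (∃ z, f z ≠ 0) →
    (∀ z, f z = 0 → z ∈ S) → ∃ (P : Polynomial ℂ) (h : ℂ → ℂ), P.Monic ∧ (∀ z ∈ P.roots, z ∈ S) ∧
      Differentiable ℂ h ∧ (∀ z, h z ≠ 0) ∧ ∀ z, f z = P.eval z * h z := by
  classical
  induction S using Finset.induction_on with
  | empty =>
    intro f hf _ hS
    refine ⟨1, f, Polynomial.monic_one, by simp, hf, fun z hz => ?_, fun z => by simp⟩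
    simpa using hS z hz
  | insert a S ha ih =>
    intro f hf hne hS
    have hfin : analyticOrderAt f a ≠ ⊤ := by
      intro htop
      rw [analyticOrderAt_eq_top] at htop
      obtain ⟨z, hz⟩ := hne
      have han : AnalyticOnNhd ℂ f univ := fun w _ => hf.analyticAt w
      have := han.eqOn_zero_of_preconnected_of_eventuallyEq_zero isPreconnected_univ (mem_univ a) htop
      exact hz (this (mem_univ z))
    obtain ⟨m, hm⟩ := ENat.ne_top_iff_exists.1 hfin
    obtain ⟨h, hh, hha, hhf⟩ := div_pow m f hf a hm.symm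
    obtain ⟨P, k, hP, hPr, hk, hk0, hPk⟩ := ih h hh ⟨a, hha⟩ (by
      intro z hz
      have h1 : f z = 0 := by rw [hhf z, hz, mul_zero]
      have h2 := hS z h1
      rw [Finset.mem_insert] at h2
      rcases h2 with h2 | h2
      · rw [h2] at hz; exact absurd hz hha
      · exact h2)
    refine ⟨(Polynomial.X - Polynomial.C a) ^ m * P, k, ?_, ?_, hk, hk0, fun z => ?_⟩
    · exact ((Polynomial.monic_X_sub_C a).pow m).mul hP
    · intro z hz
      rw [Polynomial.roots_mul (mul_ne_zero (pow_ne_zero _ (Polynomial.X_sub_C_ne_zero a)) hP.ne_zero),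
        Multiset.mem_add] at hz
      rw [Finset.mem_insert]
      rcases hz with hz | hz
      · left
        rw [Polynomial.roots_pow, Polynomial.roots_X_sub_C] at hz
        have := Multiset.mem_of_mem_nsmul hz
        simpa using this
      · right; exact hPr z hz
    · rw [hhf z, hPk z]
      simp
      ring

/-- an entire function without zeros has a logarithm -/
theorem entire_log {h : ℂ → ℂ} (hh : Differentiable ℂ h) (h0 : ∀ z, h z ≠ 0) :
    ∃ g : ℂ → ℂ, Differentiable ℂ g ∧ ∀ z, h z = Complex.exp (g z) := by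
  have hd : Differentiable ℂ (fun z => deriv h z / h z) := by
    intro z
    exact ((hh.analyticAt z).deriv.differentiableAt).div (hh z) (h0 z)
  obtain ⟨g, hg0, hg⟩ := (hd.isExactOn_univ).with_val_at 0 (Complex.log (h 0))
  have hgd : ∀ z, HasDerivAt g (deriv h z / h z) z := fun z => hg z (mem_univ z)
  refine ⟨g, fun z => (hgd z).differentiableAt, ?_⟩
  have hderiv : ∀ z, HasDerivAt (fun z => h z * Complex.exp (- g z)) 0 z := by
    intro z
    have h1 := (hh z).hasDerivAt.mul ((hgd z).neg.cexp)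
    have h2 : deriv h z * Complex.exp (-g z) + h z * (Complex.exp (-g z) * -(deriv h z / h z)) = 0 := by
      have := h0 z
      field_simp
      ring
    rw [← h2]
    exact h1
  have hconst : ∀ z, h z * Complex.exp (- g z) = h 0 * Complex.exp (- g 0) := by
    intro z
    exact is_const_of_deriv_eq_zero (fun w => (hderiv w).differentiableAt) (fun w => (hderiv w).deriv) z 0
  intro z
  have h1 := hconst z
  rw [hg0, Complex.exp_neg, Complex.exp_neg, Complex.exp_log (h0 0), mul_inv_cancel₀ (h0 0)] at h1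
  have h2 : Complex.exp (g z) ≠ 0 := Complex.exp_ne_zero _
  field_simp at h1
  exact h1

theorem max_mod {u : ℂ → ℂ} (hu : Differentiable ℂ u) {R C : ℝ} (hR : 0 < R) (h : ∀ z : ℂ, ‖z‖ = R → ‖u z‖ ≤ C)
    (z : ℂ) (hz : ‖z‖ ≤ R) : ‖u z‖ ≤ C := by
  apply Complex.norm_le_of_forall_mem_frontier_norm_le (U := Metric.ball 0 R) Metric.isBounded_ball
    hu.diffContOnCl
  · intro w hw
    rw [frontier_ball 0 hR.ne', mem_sphere_zero_iff_norm] at hw
    exact h w hw
  · rw [closure_ball 0 hR.ne', mem_closedBall_zero_iff]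
    exact hz

theorem infinite_zeros {Q : ℂ → ℂ} (hQ : Differentiable ℂ Q) {A B : ℝ} {m : ℕ} (hA : 0 < A) (hB : 0 ≤ B)
    (hgrow : ∀ z, ‖Q z‖ ≤ A * Real.exp (B * ‖z‖ ^ m)) {c0 C R0 : ℝ} {M : ℕ} (hc0 : 0 < c0) (hc1 : c0 ≤ 1 / 2)
    (hlow : ∀ r : ℝ, R0 ≤ r → ∀ z : ℂ, ‖z - r‖ ≤ c0 * r → 1 ≤ ‖Q z‖)
    (hup : ∀ r : ℝ, R0 ≤ r → ∀ z : ℂ, ‖z - r‖ ≤ c0 * r → ‖Q z‖ ≤ C * r ^ M)
    (hnp : ¬ ∃ (C : ℝ) (M : ℕ), ∀ z, ‖Q z‖ ≤ C * (1 + ‖z‖) ^ M) : {z | Q z = 0}.Infinite := by
  intro hfin
  have hne : ∃ z, Q z ≠ 0 := by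
    refine ⟨((max R0 0 : ℝ) : ℂ), fun h => ?_⟩
    have := hlow (max R0 0) (le_max_left _ _) ((max R0 0 : ℝ) : ℂ) (by
      rw [sub_self, norm_zero]; exact mul_nonneg hc0.le (le_max_right _ _))
    rw [h, norm_zero] at this
    linarith
  obtain ⟨P, h, hP, hPr, hh, hh0, hQP⟩ := div_all hfin.toFinset Q hQ hne (fun z hz => by
    rw [Set.Finite.mem_toFinset]; exact hz)
  obtain ⟨g, hg, hgh⟩ := entire_log hh hh0
  -- bounds for the roots
  obtain ⟨R1, hR1⟩ : ∃ R1 : ℝ, ∀ z ∈ hfin.toFinset, ‖z‖ ≤ R1 := by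
    obtain ⟨R1, h1⟩ := (hfin.image (fun z => ‖z‖)).bddAbove
    exact ⟨R1, fun z hz => h1 ⟨z, by rwa [Set.Finite.mem_toFinset] at hz, rfl⟩⟩
  -- size of P
  have hPge : ∀ z : ℂ, R1 + 1 ≤ ‖z‖ → 1 ≤ ‖P.eval z‖ := by
    intro z hz
    have hs : P.Splits := IsAlgClosed.splits P
    have h1 := hs.eval_eq_prod_roots_of_monic hP z
    rw [h1]
    have h2 : ∀ S : Multiset ℂ, (∀ a ∈ S, a ∈ P.roots) → 1 ≤ ‖(S.map (fun a => z - a)).prod‖ := by
      intro S
      induction S using Multiset.induction_on with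
      | empty => intro _; simp
      | cons a S ih =>
        intro hS
        rw [Multiset.map_cons, Multiset.prod_cons, norm_mul]
        have h3 := ih (fun b hb => hS b (Multiset.mem_cons_of_mem hb))
        have h4 := hR1 a (hPr a (hS a (Multiset.mem_cons_self a S)))
        have h5 := norm_sub_norm_le z a
        nlinarith
    exact h2 P.roots (fun a ha => ha)
  obtain ⟨K, hK0, hPle⟩ : ∃ K : ℝ, 0 < K ∧ ∀ z : ℂ, ‖P.eval z‖ ≤ K * (1 + ‖z‖) ^ P.natDegree := by
    refine ⟨∑ i ∈ Finset.range (P.natDegree + 1), ‖P.coeff i‖ + 1, by positivity, fun z => ?_⟩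
    rw [Polynomial.eval_eq_sum_range]
    have h1 : ‖∑ i ∈ Finset.range (P.natDegree + 1), P.coeff i * z ^ i‖ ≤
        ∑ i ∈ Finset.range (P.natDegree + 1), ‖P.coeff i‖ * (1 + ‖z‖) ^ P.natDegree := by
      refine (norm_sum_le _ _).trans (Finset.sum_le_sum fun i hi => ?_)
      rw [norm_mul, norm_pow]
      apply mul_le_mul_of_nonneg_left _ (norm_nonneg _)
      calc ‖z‖ ^ i ≤ (1 + ‖z‖) ^ i := pow_le_pow_left₀ (norm_nonneg _) (by linarith) _
        _ ≤ (1 + ‖z‖) ^ P.natDegree := pow_le_pow_right₀ (by linarith [norm_nonneg z])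
          (by rw [Finset.mem_range] at hi; omega)
    rw [← Finset.sum_mul] at h1
    have h2 : 0 ≤ (1 + ‖z‖) ^ P.natDegree := by positivity
    nlinarith
  -- growth of h and of g
  have hre : ∀ z, (g z).re = Real.log ‖h z‖ := by
    intro z; rw [hgh z, Complex.norm_exp, Real.log_exp]
  have hhb : ∀ r : ℝ, 0 < r → R1 + 1 ≤ r → ∀ z : ℂ, ‖z‖ ≤ r → ‖h z‖ ≤ A * Real.exp (B * r ^ m) := by
    intro r hr0 hr z hz
    apply max_mod hh hr0 _ z hz
    intro w hw
    have h1 := hPge w (by rw [hw]; exact hr)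
    have h2 := hgrow w
    rw [hQP w, norm_mul, hw] at h2
    have h3 : ‖h w‖ ≤ ‖P.eval w‖ * ‖h w‖ := le_mul_of_one_le_left (norm_nonneg _) h1
    linarith
  have hgb : ∃ C' : ℝ, ∀ z, ‖g z‖ ≤ C' * (1 + ‖z‖) ^ m := by
    set R2 : ℝ := max (R1 + 1) 1 with hR2
    have hR21 : 1 ≤ R2 := le_max_right _ _
    refine ⟨2 * (|Real.log A| + B * (2 * R2) ^ m + 1) + 3 * ‖g 0‖, fun z => ?_⟩
    set r := R2 * (1 + ‖z‖) with hr
    have hz0 := norm_nonneg z
    have hr1 : R2 ≤ r := by rw [hr]; nlinarith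
    have hr0 : 0 < r := by linarith
    have hzr : ‖z‖ < r := by rw [hr]; nlinarith
    set M' := |Real.log A| + B * (2 * r) ^ m + 1 with hM'
    have hM'0 : 0 < M' := by positivity
    have hmaps : Set.MapsTo g (ball 0 (2 * r)) {z | z.re ≤ M'} := by
      intro w hw
      rw [mem_ball_zero_iff] at hw
      show (g w).re ≤ M'
      rw [hre w]
      have h1 := hhb (2 * r) (by positivity) (by linarith [le_max_left (R1 + 1) 1]) w hw.le
      have h2 := Real.log_le_log (norm_pos_iff.2 (hh0 w)) h1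
      rw [Real.log_mul hA.ne' (Real.exp_pos _).ne', Real.log_exp] at h2
      rw [hM']
      linarith [le_abs_self (Real.log A)]
    have hbc := Complex.borelCaratheodory hM'0 hg.differentiableOn hmaps (by positivity : 0 < 2 * r)
      (z := z) (by rw [mem_ball_zero_iff]; linarith)
    have h1 : 2 * M' * ‖z‖ / (2 * r - ‖z‖) ≤ 2 * M' := by
      rw [div_le_iff₀ (by linarith)]
      nlinarith
    have h2 : ‖g 0‖ * (2 * r + ‖z‖) / (2 * r - ‖z‖) ≤ 3 * ‖g 0‖ := by
      rw [div_le_iff₀ (by linarith)]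
      have := norm_nonneg (g 0)
      nlinarith
    have h3 : (2 * r) ^ m = (2 * R2) ^ m * (1 + ‖z‖) ^ m := by
      rw [hr, ← mul_pow]; ring_nf
    have h4 : (1:ℝ) ≤ (1 + ‖z‖) ^ m := one_le_pow₀ (by linarith)
    have h5 : |Real.log A| ≤ |Real.log A| * (1 + ‖z‖) ^ m := le_mul_of_one_le_right (abs_nonneg _) h4
    have h6 : ‖g 0‖ ≤ ‖g 0‖ * (1 + ‖z‖) ^ m := le_mul_of_one_le_right (norm_nonneg _) h4
    have h7 := hbc.trans (add_le_add h1 h2)
    rw [hM', h3] at h7
    nlinarith
  have hgdb : ∃ C' : ℝ, ∀ z, ‖deriv g z‖ ≤ C' * (1 + ‖z‖) ^ m := by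
    obtain ⟨C', hC'⟩ := hgb
    refine ⟨C' * 2 ^ m, fun z => ?_⟩
    have hC'0 : 0 ≤ C' := by
      have := (norm_nonneg _).trans (hC' 0)
      simpa using this
    have h1 := Complex.norm_deriv_le_of_forall_mem_sphere_norm_le (c := z) (R := 1) (f := g)
      (C := C' * 2 ^ m * (1 + ‖z‖) ^ m) one_pos hg.diffContOnCl (by
        intro w hw
        rw [mem_sphere_iff_norm] at hw
        have h2 : ‖w‖ ≤ 1 + ‖z‖ := by
          have := norm_add_le (w - z) z
          rw [sub_add_cancel, hw] at this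
          exact this
        refine (hC' w).trans ?_
        rw [mul_assoc, ← mul_pow]
        apply mul_le_mul_of_nonneg_left _ hC'0
        apply pow_le_pow_left₀ (by positivity)
        linarith [norm_nonneg z])
    rwa [div_one] at h1
  obtain ⟨G, hG⟩ := poly_of_growth m (deriv g) (fun z => (hg.analyticAt z).deriv.differentiableAt) hgdb
  -- the derivative tends to zero on the positive axis
  set a0 : ℝ := Real.log (|C| + 1) + |Real.log K| + 1 with ha0
  set b0 : ℝ := (M : ℝ) + P.natDegree with hb0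
  have hK1 : ∀ᶠ r : ℝ in atTop, ‖G.eval (r : ℂ)‖ ≤ 2 * (a0 + b0 * Real.log (1 + 2 * r)) / (c0 * r / 2) := by
    filter_upwards [eventually_ge_atTop R0, eventually_ge_atTop (1:ℝ), eventually_ge_atTop (2 * (R1 + 1))]
      with r hr1 hr2 hr3
    have hr0 : 0 < r := by linarith
    have hlog0 : 0 ≤ Real.log (1 + 2 * r) := Real.log_nonneg (by linarith)
    have hlogC : 0 ≤ Real.log (|C| + 1) := Real.log_nonneg (by linarith [abs_nonneg C])
    set Mr := a0 + b0 * Real.log (1 + 2 * r) with hMr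
    have hMr0 : 0 < Mr := by rw [hMr, ha0, hb0]; positivity
    have hcr : 0 < c0 * r := by positivity
    have hnorm : ∀ z : ℂ, ‖z - r‖ ≤ c0 * r → r / 2 ≤ ‖z‖ ∧ ‖z‖ ≤ 2 * r := by
      intro z hz
      have h1 := norm_sub_norm_le (r : ℂ) z
      have h2 := norm_sub_norm_le z (r : ℂ)
      rw [norm_sub_rev] at h1
      rw [Complex.norm_real, Real.norm_of_nonneg hr0.le] at h1 h2
      constructor <;> nlinarith
    have hlogQ : ∀ z : ℂ, ‖z - r‖ ≤ c0 * r → (g z).re ≤ Real.log (|C| + 1) + M * Real.log (1 + 2 * r) := by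
      intro z hz
      obtain ⟨h1, h2⟩ := hnorm z hz
      have h3 := hup r hr1 z hz
      have h4 := hPge z (by linarith)
      have h5 : ‖h z‖ ≤ (|C| + 1) * (1 + 2 * r) ^ M := by
        rw [hQP z, norm_mul] at h3
        have h6 : ‖h z‖ ≤ ‖P.eval z‖ * ‖h z‖ := le_mul_of_one_le_left (norm_nonneg _) h4
        have h7 : C * r ^ M ≤ (|C| + 1) * (1 + 2 * r) ^ M := by
          apply mul_le_mul (by linarith [le_abs_self C]) _ (by positivity) (by positivity)
          exact pow_le_pow_left₀ hr0.le (by linarith) _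
        linarith
      rw [hre z]
      have h6 := Real.log_le_log (norm_pos_iff.2 (hh0 z)) h5
      rwa [Real.log_mul (by positivity) (by positivity), Real.log_pow] at h6
    have hlogP : ∀ z : ℂ, ‖z - r‖ ≤ c0 * r → -(|Real.log K| + P.natDegree * Real.log (1 + 2 * r)) ≤ (g z).re := by
      intro z hz
      obtain ⟨h1, h2⟩ := hnorm z hz
      have h3 := hlow r hr1 z hz
      have h4 := hPle z
      have h4' := hPge z (by linarith)
      have h5 : 1 ≤ K * (1 + 2 * r) ^ P.natDegree * ‖h z‖ := by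
        rw [hQP z, norm_mul] at h3
        refine h3.trans (mul_le_mul_of_nonneg_right (h4.trans ?_) (norm_nonneg _))
        apply mul_le_mul_of_nonneg_left _ hK0.le
        exact pow_le_pow_left₀ (by positivity) (by linarith) _
      rw [hre z]
      have h6 := Real.log_le_log one_pos h5
      rw [Real.log_mul (by positivity) (norm_ne_zero_iff.2 (hh0 z)), Real.log_mul hK0.ne' (by positivity),
        Real.log_pow, Real.log_one] at h6
      linarith [le_abs_self (Real.log K)]
    have hself : ‖((r : ℂ)) - r‖ ≤ c0 * r := by rw [sub_self, norm_zero]; exact hcr.le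
    have hud : Differentiable ℂ (fun w => g (r + w) - g r) := by
      apply Differentiable.sub_const
      exact hg.comp ((differentiable_const _).add differentiable_id)
    have hmaps : Set.MapsTo (fun w => g (r + w) - g r) (ball 0 (c0 * r)) {z | z.re ≤ Mr} := by
      intro w hw
      rw [mem_ball_zero_iff] at hw
      show (g (r + w) - g r).re ≤ Mr
      rw [Complex.sub_re]
      have h1 := hlogQ (r + w) (by rw [add_sub_cancel_left]; exact hw.le)
      have h2 := hlogP r hself
      rw [hMr, ha0, hb0]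
      linarith
    have hsph : ∀ w ∈ sphere (0:ℂ) (c0 * r / 2), ‖(fun w => g (r + w) - g r) w‖ ≤ 2 * Mr := by
      intro w hw
      rw [mem_sphere_zero_iff_norm] at hw
      have h1 := Complex.borelCaratheodory_zero hMr0 hud.differentiableOn hmaps hcr
        (z := w) (by rw [mem_ball_zero_iff]; linarith) (by simp)
      refine h1.trans ?_
      rw [hw, div_le_iff₀ (by linarith)]
      nlinarith
    have h1 := Complex.norm_deriv_le_of_forall_mem_sphere_norm_le (c := (0:ℂ)) (R := c0 * r / 2)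
      (by positivity) hud.diffContOnCl hsph
    have h2 : deriv (fun w => g (r + w) - g r) 0 = deriv g r := by
      have h3 : HasDerivAt (fun w : ℂ => g (r + w) - g r) (deriv g r) 0 := by
        have h4 : HasDerivAt g (deriv g r) ((r:ℂ) + 0) := by
          rw [add_zero]; exact (hg r).hasDerivAt
        have h5 := h4.comp_const_add (r:ℂ) 0
        exact h5.sub_const (g r)
      exact h3.deriv
    rw [h2, hG r] at h1
    exact h1
  have hlim : Tendsto (fun r : ℝ => ‖G.eval (r : ℂ)‖) atTop (𝓝 0) := by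
    have hA1 : Tendsto (fun r : ℝ => (1 + 2 * r)) atTop atTop :=
      tendsto_atTop_add_const_left _ _ (tendsto_id.const_mul_atTop (by norm_num))
    have hA2 : Tendsto (fun r : ℝ => Real.log (1 + 2 * r) / (1 + 2 * r)) atTop (𝓝 0) :=
      (Real.isLittleO_log_id_atTop.comp_tendsto hA1).tendsto_div_nhds_zero
    have hA3 : Tendsto (fun r : ℝ => (1:ℝ) / r) atTop (𝓝 0) := tendsto_const_nhds.div_atTop tendsto_id
    have hA4 : Tendsto (fun r : ℝ => (1 + 2 * r) / r) atTop (𝓝 2) := by
      have h1 : Tendsto (fun r : ℝ => 1 / r + 2) atTop (𝓝 (0 + 2)) := hA3.add tendsto_const_nhds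
      rw [zero_add] at h1
      refine h1.congr' ?_
      filter_upwards [eventually_gt_atTop 0] with r hr
      field_simp
    have hA5 : Tendsto (fun r : ℝ => 4 / c0 * (a0 * (1 / r) + b0 * (Real.log (1 + 2 * r) / (1 + 2 * r) *
        ((1 + 2 * r) / r)))) atTop (𝓝 (4 / c0 * (a0 * 0 + b0 * (0 * 2)))) :=
      ((hA3.const_mul a0).add ((hA2.mul hA4).const_mul b0)).const_mul _
    have e0 : 4 / c0 * (a0 * 0 + b0 * (0 * 2)) = 0 := by ring
    rw [e0] at hA5
    refine squeeze_zero' (Eventually.of_forall fun r => norm_nonneg _) hK1 (hA5.congr' ?_)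
    filter_upwards [eventually_gt_atTop 0] with r hr
    have h1 : (1 + 2 * r) ≠ 0 := by positivity
    field_simp
    ring
  have hGdeg : G.degree ≤ 0 := by
    by_contra hdeg
    push Not at hdeg
    have := Polynomial.tendsto_norm_atTop G hdeg (z := fun r : ℝ => (r : ℂ)) (l := atTop) (by
      have : (fun r : ℝ => ‖(r : ℂ)‖) = fun r : ℝ => |r| := by funext r; simp
      rw [this]; exact tendsto_abs_atTop_atTop)
    exact not_tendsto_nhds_of_tendsto_atTop this 0 hlim
  have hG0 : ∀ z, G.eval z = 0 := by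
    rw [Polynomial.eq_C_of_degree_le_zero hGdeg] at hlim ⊢
    intro z
    simp only [Polynomial.eval_C] at hlim ⊢
    have := tendsto_nhds_unique hlim tendsto_const_nhds
    exact norm_eq_zero.1 this.symm
  have hgc : ∀ z, g z = g 0 := fun z =>
    is_const_of_deriv_eq_zero hg (fun w => by rw [hG w, hG0 w]) z 0
  apply hnp
  refine ⟨K * ‖Complex.exp (g 0)‖, P.natDegree, fun z => ?_⟩
  rw [hQP z, hgh z, hgc z, norm_mul]
  have := hPle z
  nlinarith [norm_nonneg (Complex.exp (g 0))]

end Pool.Agent.V7H89.C2
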