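import Mathlib
import Pool.Agent.V7H89.C2.P
import Pool.Agent.V7H89.C2.Zeros

/-!
The function `exp (z^N) ((1 + z^N)(1 + z^n + … + z^(N-1)) + η p_D(z))`.
-/

set_option autoImplicit false

open Complex Set Filter Topology

namespace Pool.Agent.V7H89.C2

theorem ser_classes {U : ℂ → ℂ} {u : ℕ → ℝ} (hU : Ser U u) {N : ℕ} (hN : 0 < N) (S : Finset ℕ)
    (hS : ∀ i ∈ S, i < N) :
    Ser (fun z => (∑ i ∈ S, z ^ i) * U (z ^ N)) (fun k => if k % N ∈ S then u (k / N) else 0) := by
  intro z
  have h1 : ∀ i ∈ S, HasSum (fun k : ℕ => if k % N = i then (u (k / N) : ℂ) * z ^ k else 0)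
      (z ^ i * U (z ^ N)) := by
    intro i hi
    have hinj : Function.Injective (fun m : ℕ => N * m + i) := by
      intro x y h
      exact Nat.eq_of_mul_eq_mul_left hN (Nat.add_right_cancel h)
    rw [← hinj.hasSum_iff]
    · refine ((hU (z ^ N)).mul_left (z ^ i)).congr_fun fun m => ?_
      simp only [Function.comp]
      have e1 : (N * m + i) % N = i := by
        rw [Nat.mul_add_mod]; exact Nat.mod_eq_of_lt (hS i hi)
      have e2 : (N * m + i) / N = m := by
        rw [Nat.mul_add_div hN, Nat.div_eq_of_lt (hS i hi), add_zero]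
      rw [if_pos e1, e2, pow_add, pow_mul]
      ring
    · intro x hx
      apply if_neg
      intro h
      apply hx
      refine ⟨x / N, ?_⟩
      simp only
      rw [← h]
      exact Nat.div_add_mod x N
  have h2 := hasSum_sum h1
  have e : (fun z => (∑ i ∈ S, z ^ i) * U (z ^ N)) z = ∑ i ∈ S, z ^ i * U (z ^ N) := by
    simp only [Finset.sum_mul]
  rw [e]
  refine h2.congr_fun fun k => ?_
  rw [Finset.sum_ite_eq]
  by_cases h : k % N ∈ S
  · simp only [if_pos h]
  · simp only [if_neg h, Complex.ofReal_zero, zero_mul]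

theorem ser_expU : Ser (fun w => Complex.exp w * (1 + w)) (fun m => (1 + m) / (m.factorial : ℝ)) := by
  intro w
  have h1 := ser_exp w
  have h2 : HasSum (fun m : ℕ => ((m / (m.factorial : ℝ) : ℝ) : ℂ) * w ^ m) (w * Complex.exp w) := by
    rw [← hasSum_nat_add_iff' 1]
    have e : (fun k : ℕ => (((k + 1 : ℕ) / ((k + 1).factorial : ℝ) : ℝ) : ℂ) * w ^ (k + 1)) =
        fun k : ℕ => w * (((1 / (k.factorial : ℝ) : ℝ) : ℂ) * w ^ k) := by
      funext k
      have h3 : ((k + 1 : ℕ) / ((k + 1).factorial : ℝ) : ℝ) = 1 / (k.factorial : ℝ) := by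
        rw [Nat.factorial_succ]
        have : (k.factorial : ℝ) ≠ 0 := by exact_mod_cast k.factorial_ne_zero
        have h4 : ((k + 1 : ℕ) : ℝ) ≠ 0 := by positivity
        push_cast at h4 ⊢
        field_simp
      rw [h3]
      ring
    rw [e]
    simpa using h1.mul_left w
  have h3 := h1.add h2
  have e2 : Complex.exp w + w * Complex.exp w = Complex.exp w * (1 + w) := by ring
  rw [e2] at h3
  refine h3.congr_fun fun m => ?_
  push_cast
  ring

/-- the good residues -/
def SS (N n : ℕ) : Finset ℕ := (Finset.range N).filter (fun i => i = 0 ∨ n ≤ i)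

theorem mem_SS {N n i : ℕ} : i ∈ SS N n ↔ i < N ∧ (i = 0 ∨ n ≤ i) := by
  unfold SS
  rw [Finset.mem_filter, Finset.mem_range]

/-- coefficients of `exp (z^N) p_D` -/
noncomputable def cc (N D : ℕ) (κ : ℝ) (k : ℕ) : ℝ :=
  ∑ x ∈ Finset.HasAntidiagonal.antidiagonal k,
    (if N ∣ x.1 then 1 / ((x.1 / N).factorial : ℝ) else 0) * Pc N κ D x.2

theorem cc_ser {N D : ℕ} {κ : ℝ} (hN : 0 < N) (h0 : 0 < κ) (h1 : κ < 1) :
    Ser (fun z => Complex.exp (z ^ N) * pf N κ D z) (cc N D κ) :=
  (ser_exp.comp_pow hN).mul (pf_ser h0 h1 D)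

theorem Pc_zero {N : ℕ} {κ : ℝ} (hN : 0 < N) (j k : ℕ) (h1 : 1 ≤ k % N) (h2 : k % N ≤ j) : Pc N κ j k = 0 := by
  induction j with
  | zero => omega
  | succ j ih =>
    rw [Pc_succ]
    rcases Nat.lt_or_ge j (k % N) with h | h
    · have h3 : k % N = j + 1 := by omega
      have h4 : (k : ℝ) - (j + 1) = N * (k / N : ℕ) := by
        have h5 := Nat.div_add_mod k N
        rw [h3] at h5
        have h6 : ((N * (k / N) + (j + 1) : ℕ) : ℝ) = k := by rw [h5]
        push_cast at h6 ⊢
        linarith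
      have hN0 : (N : ℝ) ≠ 0 := by positivity
      rw [h4, show Real.pi * (N * ((k / N : ℕ) : ℝ)) / N = ((k / N : ℕ) : ℝ) * Real.pi by field_simp,
        Real.sin_nat_mul_pi, zero_mul]
    · rw [ih h, mul_zero]

theorem Pc_ne_zero {N : ℕ} {κ : ℝ} (h0 : 0 < κ) (j m : ℕ) (hj : j < N) : Pc N κ j (N * m) ≠ 0 := by
  induction j with
  | zero =>
    unfold Pc
    exact mul_ne_zero (pow_ne_zero _ (by norm_num)) (ek_pos h0 _).ne'
  | succ j ih =>
    rw [Pc_succ]
    refine mul_ne_zero ?_ (ih (by omega))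
    have hN0 : (0 : ℝ) < N := by exact_mod_cast (by omega : 0 < N)
    have e : Real.pi * (((N * m : ℕ) : ℝ) - (j + 1)) / N = m * Real.pi - Real.pi * (j + 1) / N := by
      push_cast; field_simp
    have hpos : 0 < Real.sin (Real.pi * (j + 1) / N) := by
      apply Real.sin_pos_of_pos_of_lt_pi
      · positivity
      · rw [div_lt_iff₀ hN0]
        have : ((j:ℝ) + 1) < N := by exact_mod_cast hj
        nlinarith [Real.pi_pos]
    rw [e, Real.sin_sub, Real.sin_nat_mul_pi, zero_mul, zero_sub, Real.cos_nat_mul_pi]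
    exact neg_ne_zero.2 (mul_ne_zero (pow_ne_zero _ (by norm_num)) hpos.ne')

theorem cc_zero {N D : ℕ} {κ : ℝ} (hN : 0 < N) (k : ℕ) (h1 : 1 ≤ k % N) (h2 : k % N ≤ D) : cc N D κ k = 0 := by
  unfold cc
  apply Finset.sum_eq_zero
  intro x hx
  rw [Finset.HasAntidiagonal.mem_antidiagonal] at hx
  by_cases h : N ∣ x.1
  · have e : x.2 % N = k % N := by
      obtain ⟨t, ht⟩ := h
      rw [← hx, ht, Nat.mul_add_mod]
    rw [Pc_zero hN D x.2 (by rw [e]; exact h1) (by rw [e]; exact h2), mul_zero]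
  · rw [if_neg h, zero_mul]

theorem factorial_le (m : ℕ) (hm : 1 ≤ m) :
    (m.factorial : ℝ) ≤ Real.exp 1 * Real.sqrt m * (m / Real.exp 1) ^ m := by
  obtain ⟨k, rfl⟩ : ∃ k, m = k + 1 := ⟨m - 1, by omega⟩
  have h1 : Stirling.stirlingSeq (k + 1) ≤ Stirling.stirlingSeq 1 := by
    have := Stirling.stirlingSeq'_antitone (Nat.zero_le k)
    simpa using this
  rw [Stirling.stirlingSeq_one, Stirling.stirlingSeq] at h1
  have h2 : (0:ℝ) < Real.sqrt (2 * ((k + 1 : ℕ) : ℝ)) * (((k + 1 : ℕ) : ℝ) / Real.exp 1) ^ (k + 1) := by positivity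
  rw [div_le_iff₀ h2] at h1
  refine h1.trans (le_of_eq ?_)
  rw [Real.sqrt_mul (by norm_num)]
  have : Real.sqrt 2 ≠ 0 := by positivity
  field_simp

theorem cc_bound {N D : ℕ} {κ C : ℝ} (hN : 0 < N) (h0 : 0 < κ) (h1 : κ < 1) (hC : 0 < C)
    (hb : ∀ z : ℂ, ‖Complex.exp (z ^ N) * pf N κ D z‖ ≤ C * Real.exp (‖z‖ ^ N)) (k : ℕ) :
    |cc N D κ k| ≤ C * Real.exp 1 * ((1 + (k / N : ℕ)) / ((k / N).factorial : ℝ)) := by
  have hser := cc_ser (D := D) hN h0 h1
  set m := k / N with hm
  rcases Nat.eq_zero_or_pos m with h | h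
  · have h2 := hser.cauchy (r := 1) (C := C * Real.exp 1) one_pos (by
      intro z hz
      refine (hb z).trans (le_of_eq ?_)
      rw [hz, one_pow]) k
    rw [h]
    simpa using h2
  · have hm0 : (0:ℝ) < m := by exact_mod_cast h
    have hm1 : (1:ℝ) ≤ m := by exact_mod_cast h
    set r : ℝ := (m : ℝ) ^ (1 / (N:ℝ)) with hr
    have hr0 : 0 < r := Real.rpow_pos_of_pos hm0 _
    have hr1 : 1 ≤ r := Real.one_le_rpow hm1 (by positivity)
    have hN0 : (N : ℝ) ≠ 0 := by positivity
    have hrN : r ^ N = m := by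
      rw [hr, ← Real.rpow_natCast, ← Real.rpow_mul hm0.le, one_div, inv_mul_cancel₀ hN0, Real.rpow_one]
    have h2 := hser.cauchy (r := r) (C := C * Real.exp m) hr0 (by
      intro z hz
      refine (hb z).trans (le_of_eq ?_)
      rw [hz, hrN]) k
    have h3 : (m:ℝ) ^ m ≤ r ^ k := by
      conv_lhs => rw [← hrN]
      rw [← pow_mul]
      apply pow_le_pow_right₀ hr1
      rw [hm]
      exact Nat.mul_div_le k N
    have h4 := factorial_le m h
    have h5 : (0:ℝ) < m.factorial := by exact_mod_cast m.factorial_pos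
    refine h2.trans ?_
    calc C * Real.exp m / r ^ k ≤ C * Real.exp m / (m:ℝ) ^ m :=
          div_le_div_of_nonneg_left (by positivity) (by positivity) h3
      _ ≤ C * Real.exp 1 * (Real.sqrt m / m.factorial) := by
          rw [div_le_iff₀ (by positivity), mul_assoc, mul_assoc]
          apply mul_le_mul_of_nonneg_left _ hC.le
          rw [_root_.div_pow, ← Real.exp_nat_mul, mul_one] at h4
          have h6 : (0:ℝ) < Real.exp m := Real.exp_pos _
          rw [← mul_div_assoc, le_div_iff₀ h6] at h4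
          have h7 : Real.exp m = Real.exp m * m.factorial / m.factorial := by field_simp
          rw [h7]
          have h8 : Real.exp 1 * (Real.sqrt m / m.factorial * (m:ℝ) ^ m) =
              Real.exp 1 * Real.sqrt m * (m:ℝ) ^ m / m.factorial := by ring
          rw [h8]
          apply div_le_div_of_nonneg_right _ h5.le
          linarith
      _ ≤ C * Real.exp 1 * ((1 + m) / m.factorial) := by
          apply mul_le_mul_of_nonneg_left _ (by positivity)
          apply div_le_div_of_nonneg_right _ h5.le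
          have : Real.sqrt m ≤ m := by
            rw [Real.sqrt_le_left (by positivity)]
            nlinarith
          linarith

end Pool.Agent.V7H89.C2
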