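import Mathlib
import Pool.Agent.V7H89.C2.Build

/-!
Properties of `exp (z^N) ((1 + z^N)(1 + z^n + … + z^(N-1)) + η p_D(z))`.
-/

set_option autoImplicit false

open Complex Set Filter Topology

namespace Pool.Agent.V7H89.C2

/-- the polynomial part -/
noncomputable def qq (N n : ℕ) (z : ℂ) : ℂ := (∑ i ∈ SS N n, z ^ i) * (1 + z ^ N)

/-- polynomial part plus the perturbation -/
noncomputable def QQ (N n D : ℕ) (κ η : ℝ) (z : ℂ) : ℂ := qq N n z + (η : ℂ) * pf N κ D z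

/-- the coefficients -/
noncomputable def aa (N n D : ℕ) (κ η : ℝ) (k : ℕ) : ℝ :=
  (if k % N ∈ SS N n then (1 + ((k / N : ℕ) : ℝ)) / ((k / N).factorial : ℝ) else 0) + η * cc N D κ k

theorem ser_f0 {N n D : ℕ} {κ : ℝ} (η : ℝ) (hN : 0 < N) (h0 : 0 < κ) (h1 : κ < 1) :
    Ser (fun z => Complex.exp (z ^ N) * QQ N n D κ η z) (aa N n D κ η) := by
  have hS : ∀ i ∈ SS N n, i < N := fun i hi => (mem_SS.1 hi).1
  have ha := ser_classes ser_expU hN (SS N n) hS
  have hb := (cc_ser (D := D) hN h0 h1).smul η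
  refine (ha.add hb).congr fun z => ?_
  unfold QQ qq
  ring

theorem aa_pos {N n D : ℕ} {κ η C : ℝ} (hN : 0 < N) (h0 : 0 < κ) (h1 : κ < 1) (hC : 0 < C) (hη : 0 < η)
    (hηC : η * (C * Real.exp 1) < 1)
    (hb : ∀ z : ℂ, ‖Complex.exp (z ^ N) * pf N κ D z‖ ≤ C * Real.exp (‖z‖ ^ N)) (k : ℕ)
    (hk : k % N ∈ SS N n) : 0 < aa N n D κ η k := by
  unfold aa
  rw [if_pos hk]
  have h2 := cc_bound (D := D) hN h0 h1 hC hb k
  have h3 : 0 < (1 + ((k / N : ℕ) : ℝ)) / ((k / N).factorial : ℝ) := by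
    have : (0:ℝ) < (k / N).factorial := by exact_mod_cast (k / N).factorial_pos
    positivity
  have h4 := (abs_le.1 h2).1
  have h5 : -((η * (C * Real.exp 1)) * ((1 + ((k / N : ℕ) : ℝ)) / ((k / N).factorial : ℝ))) ≤ η * cc N D κ k := by
    have := mul_le_mul_of_nonneg_left h4 hη.le
    linarith
  nlinarith

theorem aa_zero {N n D : ℕ} {κ η : ℝ} (hN : 0 < N) (hnD : n ≤ D + 1) (k : ℕ)
    (hk : k % N ∉ SS N n) : aa N n D κ η k = 0 := by
  unfold aa
  have hlt := Nat.mod_lt k hN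
  rw [mem_SS] at hk
  rw [if_neg (by rw [mem_SS]; exact hk), cc_zero hN k (by omega) (by omega)]
  ring

theorem pow_le_one_add {x : ℝ} (hx : 0 ≤ x) {i N : ℕ} (h : i ≤ N) : x ^ i ≤ 1 + x ^ N := by
  rcases le_total x 1 with h1 | h1
  · have h2 : x ^ i ≤ 1 := pow_le_one₀ hx h1
    have h3 : 0 ≤ x ^ N := by positivity
    linarith
  · have h2 : x ^ i ≤ x ^ N := pow_le_pow_right₀ h1 h
    linarith

theorem qq_le (N n : ℕ) (z : ℂ) : ‖qq N n z‖ ≤ N * (1 + ‖z‖ ^ N) ^ 2 := by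
  unfold qq
  rw [norm_mul]
  have h1 : ‖∑ i ∈ SS N n, z ^ i‖ ≤ N * (1 + ‖z‖ ^ N) := by
    refine (norm_sum_le _ _).trans ?_
    calc ∑ i ∈ SS N n, ‖z ^ i‖ ≤ ∑ i ∈ SS N n, (1 + ‖z‖ ^ N) := by
          apply Finset.sum_le_sum
          intro i hi
          rw [norm_pow]
          exact pow_le_one_add (norm_nonneg z) (mem_SS.1 hi).1.le
      _ = (SS N n).card * (1 + ‖z‖ ^ N) := by rw [Finset.sum_const, nsmul_eq_mul]
      _ ≤ N * (1 + ‖z‖ ^ N) := by
          apply mul_le_mul_of_nonneg_right _ (by positivity)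
          have : (SS N n).card ≤ (Finset.range N).card := Finset.card_filter_le _ _
          rw [Finset.card_range] at this
          exact_mod_cast this
  have h2 : ‖1 + z ^ N‖ ≤ 1 + ‖z‖ ^ N := by
    refine (norm_add_le _ _).trans ?_
    rw [norm_one, norm_pow]
  calc ‖∑ i ∈ SS N n, z ^ i‖ * ‖1 + z ^ N‖ ≤ (N * (1 + ‖z‖ ^ N)) * (1 + ‖z‖ ^ N) :=
        mul_le_mul h1 h2 (norm_nonneg _) (by positivity)
    _ = _ := by ring

theorem qq_ge {N n : ℕ} (hN : 2 ≤ N) (hn : n < N) (L : ℝ) : ∃ R : ℝ, ∀ z : ℂ, R ≤ ‖z‖ → L ≤ ‖qq N n z‖ := by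
  have ht1 : Tendsto (fun z : ℂ => ‖z‖) (comap (fun z : ℂ => ‖z‖) atTop) atTop := tendsto_comap
  set P1 : Polynomial ℂ := ∑ i ∈ SS N n, Polynomial.X ^ i with hP1
  set P2 : Polynomial ℂ := 1 + Polynomial.X ^ N with hP2
  have hd1 : 0 < P1.degree := by
    have hc : P1.coeff (N - 1) = 1 := by
      rw [hP1, Polynomial.finsetSum_coeff]
      simp only [Polynomial.coeff_X_pow]
      rw [Finset.sum_ite_eq, if_pos]
      rw [mem_SS]
      omega
    have := Polynomial.le_degree_of_ne_zero (by rw [hc]; exact one_ne_zero : P1.coeff (N - 1) ≠ 0)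
    refine lt_of_lt_of_le ?_ this
    exact_mod_cast (by omega : 0 < N - 1)
  have hd2 : 0 < P2.degree := by
    have hc : P2.coeff N = 1 := by
      rw [hP2, Polynomial.coeff_add, Polynomial.coeff_X_pow, if_pos rfl, Polynomial.coeff_one, if_neg (by omega)]
      ring
    have := Polynomial.le_degree_of_ne_zero (by rw [hc]; exact one_ne_zero : P2.coeff N ≠ 0)
    refine lt_of_lt_of_le ?_ this
    exact_mod_cast (by omega : 0 < N)
  have h1 := Polynomial.tendsto_norm_atTop P1 hd1 ht1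
  have h2 := Polynomial.tendsto_norm_atTop P2 hd2 ht1
  have h3 := h1.atTop_mul_atTop₀ h2
  have h4 := h3.eventually_ge_atTop L
  rw [eventually_comap] at h4
  obtain ⟨R, hR⟩ := h4.exists_forall_of_atTop
  refine ⟨R, fun z hz => ?_⟩
  have := hR ‖z‖ hz z rfl
  rw [← norm_mul] at this
  unfold qq
  simpa [hP1, hP2, Polynomial.eval_finsetSum] using this

/-- the argument in a small cone -/
theorem arg_small {Θ : ℝ} {c0 : ℝ} (h0 : 0 < c0) (h1 : c0 ≤ 1 / 2) (h2 : c0 * Real.pi ≤ Θ)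
    {r : ℝ} (hr : 0 < r) {z : ℂ} (hz : ‖z - r‖ ≤ c0 * r) : |z.arg| ≤ Θ := by
  have hpi := Real.pi_pos
  have h3 := Complex.abs_re_le_norm (z - r)
  have h4 := Complex.abs_im_le_norm (z - r)
  rw [Complex.sub_re, Complex.ofReal_re] at h3
  rw [Complex.sub_im, Complex.ofReal_im, sub_zero] at h4
  have h5 := (abs_le.1 (h3.trans hz)).1
  have hre : r / 2 ≤ z.re := by nlinarith
  have him : |z.im| ≤ c0 * r := h4.trans hz
  have hnorm : r / 2 ≤ ‖z‖ := hre.trans (Complex.re_le_norm z)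
  have hz0 : z ≠ 0 := by
    intro h; rw [h, norm_zero] at hnorm; linarith
  have harg : |z.arg| ≤ Real.pi / 2 := by
    rw [Complex.abs_arg_le_pi_div_two_iff]
    linarith
  have hs : 2 / Real.pi * |z.arg| ≤ Real.sin |z.arg| := Real.mul_le_sin (abs_nonneg _) harg
  have hs2 : Real.sin |z.arg| ≤ 2 * c0 := by
    have h6 : |Real.sin z.arg| = |z.im| / ‖z‖ := by
      rw [Complex.sin_arg, abs_div, abs_of_nonneg (norm_nonneg z)]
    have h7 : Real.sin |z.arg| ≤ |Real.sin z.arg| := by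
      rcases abs_cases z.arg with ⟨h, _⟩ | ⟨h, _⟩
      · rw [h]; exact le_abs_self _
      · rw [h, Real.sin_neg]; exact neg_le_abs _
    rw [h6] at h7
    refine h7.trans ?_
    rw [div_le_iff₀ (by linarith)]
    nlinarith
  have h8 : 2 / Real.pi * |z.arg| ≤ 2 * c0 := hs.trans hs2
  rw [div_mul_eq_mul_div, div_le_iff₀ hpi] at h8
  linarith

structure Data (N n D : ℕ) (κ η C Θ : ℝ) : Prop where
  hN : 3 ≤ N
  hn : 2 ≤ n
  hnN : n < N
  hnD : n ≤ D + 1
  hDN : D < N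
  h0 : 0 < κ
  h1 : κ < 1
  hC : 0 < C
  hη : 0 < η
  hηC : η * (C * Real.exp 1) < 1
  hΘ : 0 < Θ
  sector : ∀ z : ℂ, |z.arg| ≤ Θ → ‖pf N κ D z‖ ≤ C
  global : ∀ z : ℂ, ‖pf N κ D z‖ ≤ C * Real.exp (‖z‖ ^ N - (z ^ N).re)

theorem exists_data {N n D : ℕ} (hn : 2 ≤ n) (hnN : n < N) (hnD : n ≤ D + 1) (hDN : D < N) (hodd : Odd (N + D))
    {Θ : ℝ} (hΘ : 0 < Θ) (hΘ2 : Θ < Real.pi * (1 - (D + 1 / 2) / N)) :
    ∃ κ η C : ℝ, Data N n D κ η C Θ := by
  have hpi := Real.pi_pos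
  have hN3 : (3:ℝ) ≤ N := by exact_mod_cast (by omega : 3 ≤ N)
  have hN0 : (0:ℝ) < N := by linarith
  -- β
  set β : ℝ := min (Real.pi - D * (Real.pi / N) - Θ) (3 * Real.pi / (4 * N)) with hβ
  have hβ1 : Real.pi / (2 * N) < β := by
    rw [hβ]
    apply lt_min
    · have e : Real.pi * (1 - (D + 1 / 2) / N) = Real.pi - D * (Real.pi / N) - Real.pi / (2 * N) := by
        field_simp; ring
      rw [e] at hΘ2
      linarith
    · rw [div_lt_div_iff₀ (by positivity) (by positivity)]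
      nlinarith
  have hβ2 : β < Real.pi / N := by
    refine (min_le_right _ _).trans_lt ?_
    rw [div_lt_div_iff₀ (by positivity) (by positivity)]
    nlinarith
  have hβΘ : Θ ≤ Real.pi - β - D * (Real.pi / N) := by
    have : β ≤ Real.pi - D * (Real.pi / N) - Θ := min_le_left _ _
    linarith
  -- σ
  set σ : ℝ := (1 / N + 2 * β / Real.pi) / 2 with hσ
  have e1 : 1 / (N:ℝ) < 2 * β / Real.pi := by
    rw [div_lt_div_iff₀ hN0 hpi]
    rw [div_lt_iff₀ (by positivity)] at hβ1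
    linarith
  have hσ1 : 1 / (N:ℝ) < σ := by rw [hσ]; linarith
  have hσ2 : σ < 2 * β / Real.pi := by rw [hσ]; linarith
  have hσ3 : σ < 1 := by
    refine hσ2.trans ?_
    rw [div_lt_one hpi]
    rw [lt_div_iff₀ hN0] at hβ2
    nlinarith
  have hσ0 : 0 < σ := lt_trans (by positivity) hσ1
  set κ : ℝ := 1 - σ with hκ
  have hκσ : 1 - κ = σ := by rw [hκ]; ring
  have h0 : 0 < κ := by rw [hκ]; linarith
  have h1 : κ < 1 := by rw [hκ]; linarith
  have hc1 : (1 - κ) * Real.pi / 2 < β := by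
    rw [hκσ]
    rw [lt_div_iff₀ hpi] at hσ2
    linarith
  have hc2 : 1 < (1 - κ) * N := by
    rw [hκσ]
    rwa [div_lt_iff₀ hN0] at hσ1
  have hβle : β ≤ Real.pi / 2 := by
    refine hβ2.le.trans ?_
    exact div_le_div_of_nonneg_left hpi.le (by norm_num) (by linarith)
  obtain ⟨C1, hC1, hE1⟩ := E_sector h0 h1 hc1 hβle
  obtain ⟨C2, hC2, hE2⟩ := E_global (N := N) (by omega) h0 h1 hc1 hβ2 hc2
  set C := max C1 C2 with hC
  have hC0 : 0 < C := lt_of_lt_of_le hC1 (le_max_left _ _)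
  have hs := pf_sector (N := N) h0 h1 hE1 D
  have hg := pf_global (N := N) (by omega) h0 h1 hE2 D
  refine ⟨κ, 1 / (2 * (C * Real.exp 1)), C, ⟨by omega, hn, hnN, hnD, hDN, h0, h1, hC0, by positivity, ?_, hΘ, ?_, ?_⟩⟩
  · rw [one_div, mul_inv]
    have : C * Real.exp 1 ≠ 0 := by positivity
    field_simp
    norm_num
  · intro z hz
    have := hs ‖z‖ (norm_nonneg z) z.arg (hz.trans hβΘ)
    rw [Complex.norm_mul_exp_arg_mul_I] at this
    exact this.trans (le_max_left _ _)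
  · intro z
    have := hg z
    rw [hodd.neg_one_pow, neg_one_mul, ← sub_eq_add_neg] at this
    exact this.trans (mul_le_mul_of_nonneg_right (le_max_right _ _) (Real.exp_pos _).le)

namespace Data

variable {N n D : ℕ} {κ η C Θ : ℝ}

theorem Npos (d : Data N n D κ η C Θ) : 0 < N := by have := d.hN; omega

theorem exp_bound (d : Data N n D κ η C Θ) (z : ℂ) :
    ‖Complex.exp (z ^ N) * pf N κ D z‖ ≤ C * Real.exp (‖z‖ ^ N) := by
  rw [norm_mul, Complex.norm_exp]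
  calc Real.exp (z ^ N).re * ‖pf N κ D z‖ ≤ Real.exp (z ^ N).re * (C * Real.exp (‖z‖ ^ N - (z ^ N).re)) :=
        mul_le_mul_of_nonneg_left (d.global z) (Real.exp_pos _).le
    _ = C * (Real.exp (z ^ N).re * Real.exp (‖z‖ ^ N - (z ^ N).re)) := by ring
    _ = _ := by rw [← Real.exp_add]; ring_nf

theorem ser (d : Data N n D κ η C Θ) :
    Ser (fun z => Complex.exp (z ^ N) * QQ N n D κ η z) (aa N n D κ η) := ser_f0 η d.Npos d.h0 d.h1

theorem pos (d : Data N n D κ η C Θ) (k : ℕ) (hk : k % N ∈ SS N n) : 0 < aa N n D κ η k :=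
  aa_pos d.Npos d.h0 d.h1 d.hC d.hη d.hηC d.exp_bound k hk

theorem zero (d : Data N n D κ η C Θ) (k : ℕ) (hk : k % N ∉ SS N n) : aa N n D κ η k = 0 :=
  aa_zero d.Npos d.hnD k hk

theorem diff (d : Data N n D κ η C Θ) : Differentiable ℂ (QQ N n D κ η) := by
  unfold QQ
  apply Differentiable.add
  · unfold qq
    fun_prop
  · exact (pf_ser d.h0 d.h1 D).diff.const_mul _

theorem f0_le (d : Data N n D κ η C Θ) (z : ℂ) :
    ‖Complex.exp (z ^ N) * QQ N n D κ η z‖ ≤ (N + η * C) * (1 + ‖z‖ ^ N) ^ 2 * Real.exp (‖z‖ ^ N) := by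
  have h1 := d.exp_bound z
  have h2 := qq_le N n z
  have h3 : ‖Complex.exp (z ^ N)‖ ≤ Real.exp (‖z‖ ^ N) := by
    rw [Complex.norm_exp]
    apply Real.exp_le_exp.2
    rw [← norm_pow]
    exact Complex.re_le_norm _
  have e : Complex.exp (z ^ N) * QQ N n D κ η z =
      Complex.exp (z ^ N) * qq N n z + (η : ℂ) * (Complex.exp (z ^ N) * pf N κ D z) := by
    unfold QQ; ring
  rw [e]
  refine (norm_add_le _ _).trans ?_
  rw [norm_mul, norm_mul (η : ℂ), Complex.norm_real, Real.norm_of_nonneg d.hη.le]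
  have h4 : ‖Complex.exp (z ^ N)‖ * ‖qq N n z‖ ≤ Real.exp (‖z‖ ^ N) * (N * (1 + ‖z‖ ^ N) ^ 2) :=
    mul_le_mul h3 h2 (norm_nonneg _) (Real.exp_pos _).le
  have h5 : η * ‖Complex.exp (z ^ N) * pf N κ D z‖ ≤ η * (C * Real.exp (‖z‖ ^ N)) :=
    mul_le_mul_of_nonneg_left h1 d.hη.le
  have h6 : 1 ≤ (1 + ‖z‖ ^ N) ^ 2 := one_le_pow₀ (by linarith [pow_nonneg (norm_nonneg z) N])
  have h7 : η * (C * Real.exp (‖z‖ ^ N)) ≤ η * (C * Real.exp (‖z‖ ^ N)) * (1 + ‖z‖ ^ N) ^ 2 :=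
    le_mul_of_one_le_right (by have := d.hη; have := d.hC; positivity) h6
  linarith

theorem Q_growth (d : Data N n D κ η C Θ) (z : ℂ) :
    ‖QQ N n D κ η z‖ ≤ (N + η * C) * Real.exp (2 * ‖z‖ ^ N) := by
  have h2 := qq_le N n z
  have h1 := d.global z
  have hz : 0 ≤ ‖z‖ ^ N := by positivity
  unfold QQ
  refine (norm_add_le _ _).trans ?_
  rw [norm_mul, Complex.norm_real, Real.norm_of_nonneg d.hη.le]
  have h3 : (1 + ‖z‖ ^ N) ^ 2 ≤ Real.exp (2 * ‖z‖ ^ N) := by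
    have := Real.add_one_le_exp (‖z‖ ^ N)
    have h4 : (1 + ‖z‖ ^ N) ^ 2 ≤ Real.exp (‖z‖ ^ N) ^ 2 := pow_le_pow_left₀ (by linarith) (by linarith) 2
    rwa [← Real.exp_nat_mul, Nat.cast_ofNat] at h4
  have h4 : Real.exp (‖z‖ ^ N - (z ^ N).re) ≤ Real.exp (2 * ‖z‖ ^ N) := by
    apply Real.exp_le_exp.2
    have := Complex.abs_re_le_norm (z ^ N)
    rw [norm_pow] at this
    linarith [(abs_le.1 this).1]
  have h5 : η * ‖pf N κ D z‖ ≤ η * (C * Real.exp (2 * ‖z‖ ^ N)) := by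
    apply mul_le_mul_of_nonneg_left _ d.hη.le
    exact h1.trans (mul_le_mul_of_nonneg_left h4 d.hC.le)
  have h6 : (N:ℝ) * (1 + ‖z‖ ^ N) ^ 2 ≤ N * Real.exp (2 * ‖z‖ ^ N) :=
    mul_le_mul_of_nonneg_left h3 (by positivity)
  linarith

/-- in the sector, far out, `Q` is at least one -/
theorem Q_ge (d : Data N n D κ η C Θ) : ∃ R : ℝ, 1 ≤ R ∧ ∀ z : ℂ, |z.arg| ≤ Θ → R ≤ ‖z‖ → 1 ≤ ‖QQ N n D κ η z‖ := by
  obtain ⟨R, hR⟩ := qq_ge (N := N) (n := n) (by have := d.hN; omega) d.hnN (1 + η * C)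
  refine ⟨max R 1, le_max_right _ _, fun z hz1 hz2 => ?_⟩
  have h1 := hR z ((le_max_left _ _).trans hz2)
  have h2 := d.sector z hz1
  unfold QQ
  have h3 := norm_sub_le (qq N n z + (η : ℂ) * pf N κ D z) ((η : ℂ) * pf N κ D z)
  rw [add_sub_cancel_right, norm_mul, Complex.norm_real, Real.norm_of_nonneg d.hη.le] at h3
  have h4 : η * ‖pf N κ D z‖ ≤ η * C := mul_le_mul_of_nonneg_left h2 d.hη.le
  linarith

theorem Q_infinite (d : Data N n D κ η C Θ) : {z | QQ N n D κ η z = 0}.Infinite := by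
  have hpi := Real.pi_pos
  obtain ⟨R, hR1, hR⟩ := d.Q_ge
  have hΘ := d.hΘ
  have hη := d.hη
  have hC := d.hC
  set c0 : ℝ := min (1 / 2) (Θ / Real.pi) with hc0
  have hc00 : 0 < c0 := lt_min (by norm_num) (div_pos hΘ hpi)
  have hc01 : c0 ≤ 1 / 2 := min_le_left _ _
  have hc02 : c0 * Real.pi ≤ Θ := by
    have : c0 ≤ Θ / Real.pi := min_le_right _ _
    rwa [le_div_iff₀ hpi] at this
  have hcone : ∀ r : ℝ, 2 * R ≤ r → ∀ z : ℂ, ‖z - r‖ ≤ c0 * r → |z.arg| ≤ Θ ∧ R ≤ ‖z‖ ∧ ‖z‖ ≤ 2 * r := by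
    intro r hr z hz
    have hr0 : 0 < r := by linarith
    have h1 := norm_sub_norm_le (r : ℂ) z
    have h2 := norm_sub_norm_le z (r : ℂ)
    rw [norm_sub_rev] at h1
    rw [Complex.norm_real, Real.norm_of_nonneg hr0.le] at h1 h2
    refine ⟨arg_small hc00 hc01 hc02 hr0 hz, by nlinarith, by nlinarith⟩
  refine infinite_zeros d.diff (A := N + η * C) (B := 2) (m := N) (by positivity) (by norm_num) d.Q_growth
    (c0 := c0) (C := N * 4 * 4 ^ N + η * C) (R0 := 2 * R) (M := 2 * N) hc00 hc01 ?_ ?_ ?_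
  · intro r hr z hz
    obtain ⟨h1, h2, _⟩ := hcone r hr z hz
    exact hR z h1 h2
  · intro r hr z hz
    obtain ⟨h1, h2, h3⟩ := hcone r hr z hz
    have hr1 : 1 ≤ r := by linarith
    have h4 := qq_le N n z
    have h5 := d.sector z h1
    unfold QQ
    refine (norm_add_le _ _).trans ?_
    rw [norm_mul, Complex.norm_real, Real.norm_of_nonneg hη.le]
    have h6 : ‖z‖ ^ N ≤ (2 * r) ^ N := pow_le_pow_left₀ (norm_nonneg _) h3 _
    have h7 : 1 ≤ (2 * r) ^ N := one_le_pow₀ (by linarith)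
    have h8 : (1 + ‖z‖ ^ N) ^ 2 ≤ (2 * (2 * r) ^ N) ^ 2 :=
      pow_le_pow_left₀ (by positivity) (by linarith) 2
    have h9 : (2 * (2 * r) ^ N) ^ 2 = 4 * 4 ^ N * r ^ (2 * N) := by
      rw [mul_pow, mul_pow, pow_mul, mul_pow, ← pow_mul, ← pow_mul, mul_comm N 2, pow_mul 2 2 N]
      norm_num
      ring
    have h10 : (N:ℝ) * (1 + ‖z‖ ^ N) ^ 2 ≤ N * (4 * 4 ^ N * r ^ (2 * N)) :=
      mul_le_mul_of_nonneg_left (h8.trans h9.le) (by positivity)
    have h11 : (1:ℝ) ≤ r ^ (2 * N) := one_le_pow₀ hr1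
    have h12 : η * ‖pf N κ D z‖ ≤ η * C := mul_le_mul_of_nonneg_left h5 hη.le
    have h13 : η * C ≤ η * C * r ^ (2 * N) := le_mul_of_one_le_right (by positivity) h11
    nlinarith
  · rintro ⟨C', M, hM⟩
    have hC'0 : 0 ≤ C' := by
      have := (norm_nonneg _).trans (hM 0)
      simpa using this
    set M' := M + 2 * N with hM'
    -- polynomial bound for p
    have hp : ∀ z : ℂ, ‖pf N κ D z‖ ≤ (C' + 4 * N) / η * (1 + ‖z‖) ^ M' := by
      intro z
      have hz0 := norm_nonneg z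
      have h1 := hM z
      have h2 := qq_le N n z
      have h3 : (η : ℂ) * pf N κ D z = QQ N n D κ η z - qq N n z := by unfold QQ; ring
      have h4 : η * ‖pf N κ D z‖ ≤ ‖QQ N n D κ η z‖ + ‖qq N n z‖ := by
        have h5 := norm_sub_le (QQ N n D κ η z) (qq N n z)
        rwa [← h3, norm_mul, Complex.norm_real, Real.norm_of_nonneg hη.le] at h5
      have h6 : (1 + ‖z‖) ^ M ≤ (1 + ‖z‖) ^ M' := pow_le_pow_right₀ (by linarith) (by omega)
      have h7 : (1 + ‖z‖ ^ N) ^ 2 ≤ 4 * (1 + ‖z‖) ^ M' := by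
        have h8 : 1 + ‖z‖ ^ N ≤ 2 * (1 + ‖z‖) ^ N := by
          have h9 : ‖z‖ ^ N ≤ (1 + ‖z‖) ^ N := pow_le_pow_left₀ hz0 (by linarith) _
          have h10 : 1 ≤ (1 + ‖z‖) ^ N := one_le_pow₀ (by linarith)
          linarith
        calc (1 + ‖z‖ ^ N) ^ 2 ≤ (2 * (1 + ‖z‖) ^ N) ^ 2 := pow_le_pow_left₀ (by positivity) h8 2
          _ = 4 * (1 + ‖z‖) ^ (2 * N) := by rw [mul_pow, ← pow_mul, mul_comm N 2]; norm_num
          _ ≤ 4 * (1 + ‖z‖) ^ M' := by
            apply mul_le_mul_of_nonneg_left _ (by norm_num)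
            exact pow_le_pow_right₀ (by linarith) (by omega)
      rw [div_mul_eq_mul_div, le_div_iff₀ hη]
      have h8 : C' * (1 + ‖z‖) ^ M ≤ C' * (1 + ‖z‖) ^ M' := mul_le_mul_of_nonneg_left h6 hC'0
      have h9 : (N:ℝ) * (1 + ‖z‖ ^ N) ^ 2 ≤ N * (4 * (1 + ‖z‖) ^ M') :=
        mul_le_mul_of_nonneg_left h7 (by positivity)
      linarith
    have hne := Pc_ne_zero (κ := κ) d.h0 D (M' + 1) d.hDN
    have hNp := d.Npos
    have hk : M' + 1 ≤ N * (M' + 1) := Nat.le_mul_of_pos_left _ hNp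
    -- Cauchy
    have hcz : ∀ r : ℝ, 1 ≤ r → |Pc N κ D (N * (M' + 1))| ≤ (C' + 4 * N) / η * 2 ^ M' / r := by
      intro r hr
      have hr0 : 0 < r := by linarith
      have h1 := (pf_ser (N := N) d.h0 d.h1 D).cauchy hr0 (C := (C' + 4 * N) / η * (1 + r) ^ M') (by
        intro z hz
        have := hp z
        rwa [hz] at this) (N * (M' + 1))
      refine h1.trans ?_
      rw [div_le_div_iff₀ (by positivity) hr0]
      have h2 : (1 + r) ^ M' ≤ 2 ^ M' * r ^ M' := by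
        rw [← mul_pow]; exact pow_le_pow_left₀ (by positivity) (by linarith) _
      have h3 : r ^ (M' + 1) ≤ r ^ (N * (M' + 1)) := pow_le_pow_right₀ hr hk
      have h4 : 0 ≤ (C' + 4 * N) / η := by positivity
      calc (C' + 4 * N) / η * (1 + r) ^ M' * r ≤ (C' + 4 * N) / η * (2 ^ M' * r ^ M') * r := by gcongr
        _ = (C' + 4 * N) / η * 2 ^ M' * r ^ (M' + 1) := by rw [pow_succ]; ring
        _ ≤ (C' + 4 * N) / η * 2 ^ M' * r ^ (N * (M' + 1)) := by gcongr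
    have hpos : 0 < |Pc N κ D (N * (M' + 1))| := abs_pos.2 hne
    set K := (C' + 4 * N) / η * 2 ^ M' with hK
    have hK0 : 0 ≤ K := by rw [hK]; positivity
    have h5 := hcz (K / |Pc N κ D (N * (M' + 1))| + 1) (by
      have : 0 ≤ K / |Pc N κ D (N * (M' + 1))| := by positivity
      linarith)
    rw [le_div_iff₀ (by positivity), mul_add, mul_one, mul_div_cancel₀ _ hpos.ne'] at h5
    linarith

/-- finitely many zeros in the sector -/
theorem Q_sector_finite (d : Data N n D κ η C Θ) : {z | QQ N n D κ η z = 0 ∧ |z.arg| ≤ Θ}.Finite := by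
  obtain ⟨R, hR1, hR⟩ := d.Q_ge
  by_contra hinf
  have hinf' : {z | QQ N n D κ η z = 0 ∧ |z.arg| ≤ Θ}.Infinite := hinf
  obtain ⟨x, _, hx⟩ := hinf'.exists_accPt_of_subset_isCompact (isCompact_closedBall (0:ℂ) R)
    (fun z hz => by
      rw [mem_closedBall_zero_iff]
      by_contra hlt
      push Not at hlt
      have := hR z hz.2 hlt.le
      rw [hz.1, norm_zero] at this
      linarith)
  rw [accPt_iff_frequently] at hx
  have han : AnalyticOnNhd ℂ (QQ N n D κ η) univ := fun w _ => d.diff.analyticAt w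
  have hfr : ∃ᶠ z in 𝓝[≠] x, QQ N n D κ η z = 0 := by
    rw [frequently_nhdsWithin_iff]
    exact hx.mono fun y hy => ⟨hy.2.1, hy.1⟩
  have h0 := han.eqOn_zero_of_preconnected_of_frequently_eq_zero isPreconnected_univ (mem_univ x) hfr
  have h1 := hR ((R : ℝ) : ℂ) (by
    rw [Complex.arg_ofReal_of_nonneg (by linarith), abs_zero]; exact d.hΘ.le) (by
    rw [Complex.norm_real, Real.norm_of_nonneg (by linarith)])
  rw [h0 (mem_univ _)] at h1
  simp at h1
  linarith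

end Data

end Pool.Agent.V7H89.C2
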