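import Mathlib
import Pool.Agent.V7H89.C2.Fn
import Pool.Agent.Results.MP_c20521_an.BelowN

/-!
From a power series supported on the good residues to a member of the class.
-/

set_option autoImplicit false

open Complex Set Filter Topology
open Pool.Agent.Results.MP_c20521_an.BelowN

namespace Pool.Agent.V7H89.C2

/-- enumeration of the exponents congruent to `0, n, …, N-1` modulo `N` -/
def ee (N n j : ℕ) : ℕ :=
  N * (j / (N - n + 1)) + (if j % (N - n + 1) = 0 then 0 else j % (N - n + 1) + (n - 1))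

theorem ee_succ {N n : ℕ} (hn : 2 ≤ n) (hnN : n < N) (j : ℕ) :
    ee N n (j + 1) = ee N n j + (if j % (N - n + 1) = 0 then n else 1) := by
  obtain ⟨K, hK⟩ : ∃ K, K = N - n + 1 := ⟨_, rfl⟩
  have hK2 : 2 ≤ K := by omega
  have hN : N = K + n - 1 := by omega
  unfold ee
  rw [← hK]
  have h1 := Nat.div_add_mod j K
  have hlt := Nat.mod_lt j (by omega : 0 < K)
  by_cases h : j % K + 1 < K
  · have e1 : (j + 1) / K = j / K := by
      rw [Nat.div_eq_iff (by omega)]
      constructor
      · rw [mul_comm]; omega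
      · rw [mul_comm]; omega
    have e2 : (j + 1) % K = j % K + 1 := by
      have h2 := Nat.div_add_mod (j + 1) K
      rw [e1] at h2
      omega
    rw [e1, e2, if_neg (by omega)]
    split_ifs <;> omega
  · have h3 : j % K + 1 = K := by omega
    have e1 : (j + 1) / K = j / K + 1 := by
      rw [Nat.div_eq_iff (by omega)]
      constructor
      · rw [add_mul, mul_comm]; omega
      · rw [add_mul, mul_comm]; omega
    have e2 : (j + 1) % K = 0 := by
      have h2 := Nat.div_add_mod (j + 1) K
      rw [e1, mul_add, mul_one] at h2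
      omega
    rw [e1, e2, if_pos rfl, if_neg (by omega), if_neg (by omega), mul_add, mul_one]
    omega

theorem ee_mono {N n : ℕ} (hn : 2 ≤ n) (hnN : n < N) : StrictMono (ee N n) := by
  apply strictMono_nat_of_lt_succ
  intro j
  rw [ee_succ hn hnN]
  split_ifs <;> omega

theorem ee_mem {N n : ℕ} (hn : 2 ≤ n) (hnN : n < N) (j : ℕ) : ee N n j % N ∈ SS N n := by
  rw [mem_SS]
  unfold ee
  have hlt := Nat.mod_lt j (by omega : 0 < N - n + 1)
  rw [Nat.mul_add_mod]
  split_ifs with h
  · rw [Nat.zero_mod]; omega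
  · rw [Nat.mod_eq_of_lt (by omega)]; omega

theorem ee_surj {N n : ℕ} (hn : 2 ≤ n) (hnN : n < N) (k : ℕ) (hk : k % N ∈ SS N n) : ∃ j, ee N n j = k := by
  rw [mem_SS] at hk
  obtain ⟨h1, h2⟩ := hk
  have h3 := Nat.div_add_mod k N
  obtain ⟨K, hK⟩ : ∃ K, K = N - n + 1 := ⟨_, rfl⟩
  rcases h2 with h2 | h2
  · refine ⟨K * (k / N), ?_⟩
    unfold ee
    rw [← hK, Nat.mul_div_cancel_left _ (by omega), Nat.mul_mod_right, if_pos rfl]
    omega
  · refine ⟨K * (k / N) + (k % N - (n - 1)), ?_⟩
    unfold ee
    have h4 : k % N - (n - 1) < K := by omega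
    rw [← hK, Nat.mul_add_div (by omega), Nat.div_eq_of_lt h4, Nat.mul_add_mod, Nat.mod_eq_of_lt h4,
      if_neg (by omega), add_zero]
    omega

theorem mkLac {N n : ℕ} (hn : 2 ≤ n) (hnN : n < N) {f : ℂ → ℂ} {A : ℕ → ℝ} (hf : Ser f A)
    (hpos : ∀ k, k % N ∈ SS N n → 0 < A k) (hzero : ∀ k, k % N ∉ SS N n → A k = 0) :
    ∃ F : Lac, (∀ z, F.f z = f z) ∧ F.A = n := by
  have hinj := (ee_mono hn hnN).injective
  have hs : ∀ z : ℂ, HasSum (fun j => (A (ee N n j) : ℂ) * z ^ ee N n j) (f z) := by
    intro z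
    have h1 := hf z
    have h2 : ∀ x, x ∉ Set.range (ee N n) → (A x : ℂ) * z ^ x = 0 := by
      intro x hx
      rw [hzero x, Complex.ofReal_zero, zero_mul]
      intro hmem
      exact hx (ee_surj hn hnN x hmem)
    exact (hinj.hasSum_iff h2).2 h1
  refine ⟨⟨ee N n, fun j => A (ee N n j), ee_mono hn hnN, fun j => hpos _ (ee_mem hn hnN j),
    fun z => (hs z).summable⟩, fun z => (hs z).tsum_eq, ?_⟩
  have hgap : ∀ j, ee N n (j + 1) - ee N n j = if j % (N - n + 1) = 0 then n else 1 := by
    intro j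
    rw [ee_succ hn hnN]
    omega
  show limsup (fun k => ((ee N n (k + 1) - ee N n k : ℕ) : ℕ∞)) atTop = n
  simp only [hgap]
  apply le_antisymm
  · apply limsup_le_of_le (by isBoundedDefault)
    filter_upwards with k
    split_ifs
    · exact le_rfl
    · exact_mod_cast (by omega : 1 ≤ n)
  · apply le_limsup_of_frequently_le _ (by isBoundedDefault)
    rw [frequently_atTop]
    intro a
    refine ⟨(N - n + 1) * a, Nat.le_mul_of_pos_left _ (by omega), ?_⟩
    rw [Nat.mul_mod_right, if_pos rfl]

/-- positive entries survive multiplication by a series with nonnegative coefficients -/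
theorem mul_pos_ser {N n : ℕ} {h A : ℕ → ℝ} (hh : ∀ k, 0 ≤ h k) (hh0 : 0 < h 0)
    (hpos : ∀ k, k % N ∈ SS N n → 0 < A k) (hzero : ∀ k, k % N ∉ SS N n → A k = 0) :
    (∀ k, k % N ∈ SS N n → 0 < ∑ x ∈ Finset.HasAntidiagonal.antidiagonal k,
      (if N ∣ x.1 then h (x.1 / N) else 0) * A x.2) ∧
    (∀ k, k % N ∉ SS N n → ∑ x ∈ Finset.HasAntidiagonal.antidiagonal k,
      (if N ∣ x.1 then h (x.1 / N) else 0) * A x.2 = 0) := by
  have hA0 : ∀ k, 0 ≤ A k := by
    intro k
    by_cases hk : k % N ∈ SS N n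
    · exact (hpos k hk).le
    · rw [hzero k hk]
  constructor
  · intro k hk
    apply Finset.sum_pos'
    · intro x _
      apply mul_nonneg _ (hA0 _)
      split_ifs
      · exact hh _
      · exact le_rfl
    · refine ⟨(0, k), ?_, ?_⟩
      · rw [Finset.HasAntidiagonal.mem_antidiagonal]; simp
      · simp only [dvd_zero, if_true, Nat.zero_div]
        exact mul_pos hh0 (hpos k hk)
  · intro k hk
    apply Finset.sum_eq_zero
    intro x hx
    rw [Finset.HasAntidiagonal.mem_antidiagonal] at hx
    by_cases h : N ∣ x.1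
    · have e : x.2 % N = k % N := by
        obtain ⟨t, ht⟩ := h
        rw [← hx, ht, Nat.mul_add_mod]
      rw [hzero x.2 (by rw [e]; exact hk), mul_zero]
    · rw [if_neg h, zero_mul]

theorem delta_ge {F : Lac} {θ : ℝ} (hinf : F.zeros.Infinite) (hfin : {z | F.f z = 0 ∧ |z.arg| ≤ θ}.Finite) :
    θ ≤ F.δ := by
  have : Infinite F.zeros := hinf.to_subtype
  unfold Lac.δ
  apply le_liminf_of_le
  · apply IsBoundedUnder.isCoboundedUnder_ge
    exact isBoundedUnder_of ⟨Real.pi, fun z => Complex.abs_arg_le_pi _⟩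
  · rw [eventually_cofinite]
    refine Set.Finite.of_finite_image (f := Subtype.val) (hfin.subset ?_) Subtype.val_injective.injOn
    rintro _ ⟨z, hz, rfl⟩
    rw [Set.mem_ofPred_eq, not_le] at hz
    exact ⟨z.2, hz.le⟩

theorem delta_le (F : Lac) (hinf : F.zeros.Infinite) : F.δ ≤ Real.pi := by
  have : Infinite F.zeros := hinf.to_subtype
  unfold Lac.δ
  apply liminf_le_of_le
  · exact isBoundedUnder_of ⟨0, fun z => abs_nonneg _⟩
  · intro b hb
    obtain ⟨z, hz⟩ := hb.exists
    exact hz.trans (Complex.abs_arg_le_pi _)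

theorem order_top {F : Lac} {N : ℕ} (hN : 0 < N)
    (h : ∀ᶠ r : ℝ in atTop, Real.exp (Real.exp (r ^ N)) ≤ ‖F.f (r : ℂ)‖) : F.order = ⊤ := by
  unfold Lac.order
  rw [eq_top_iff]
  have ht : Tendsto (fun r : ℝ => Real.log (Real.log (F.M r)) / Real.log r) atTop atTop := by
    have h1 : Tendsto (fun r : ℝ => r / Real.log r) atTop atTop := by
      have h2 : Tendsto (fun r : ℝ => Real.log r / r) atTop (𝓝[>] 0) := by
        rw [tendsto_nhdsWithin_iff]
        refine ⟨Real.isLittleO_log_id_atTop.tendsto_div_nhds_zero, ?_⟩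
        filter_upwards [eventually_gt_atTop 1] with r hr
        exact div_pos (Real.log_pos hr) (by linarith)
      refine (tendsto_inv_nhdsGT_zero.comp h2).congr fun r => ?_
      simp [Function.comp]
    refine tendsto_atTop_mono' _ ?_ h1
    filter_upwards [h, eventually_gt_atTop 1] with r hr hr1
    have hlog : 0 < Real.log r := Real.log_pos hr1
    apply div_le_div_of_nonneg_right _ hlog.le
    have h3 : Real.exp (Real.exp (r ^ N)) ≤ F.M r := by
      have := F.norm_f_le_M (r : ℂ)
      rw [Complex.norm_real, Real.norm_of_nonneg (by linarith)] at this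
      exact hr.trans this
    have h4 : Real.exp (r ^ N) ≤ Real.log (F.M r) := by
      rw [Real.le_log_iff_exp_le (lt_of_lt_of_le (Real.exp_pos _) h3)]
      exact h3
    have h5 : r ^ N ≤ Real.log (Real.log (F.M r)) := by
      rw [Real.le_log_iff_exp_le (lt_of_lt_of_le (Real.exp_pos _) h4)]
      exact h4
    refine le_trans ?_ h5
    exact le_self_pow₀ hr1.le (by omega)
  have h2 := EReal.tendsto_coe_atTop.comp ht
  have h3 := h2.limsup_eq
  rw [← h3]
  exact le_rfl

theorem order_eq {F : Lac} {N : ℕ} {K : ℝ} (hK : 0 < K)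
    (hup : ∀ z : ℂ, ‖F.f z‖ ≤ K * (1 + ‖z‖ ^ N) ^ 2 * Real.exp (‖z‖ ^ N))
    (hlow : ∀ᶠ r : ℝ in atTop, Real.exp (r ^ N) ≤ ‖F.f (r : ℂ)‖) : F.order = ((N : ℝ) : EReal) := by
  unfold Lac.order
  have hlog : Tendsto (fun r : ℝ => Real.log r) atTop atTop := Real.tendsto_log_atTop
  have ht : Tendsto (fun r : ℝ => Real.log (Real.log (F.M r)) / Real.log r) atTop (𝓝 (N : ℝ)) := by
    have hlim : Tendsto (fun r : ℝ => (N : ℝ) + Real.log (3 + |Real.log K|) / Real.log r) atTop (𝓝 ((N:ℝ) + 0)) :=
      tendsto_const_nhds.add (tendsto_const_nhds.div_atTop hlog)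
    rw [add_zero] at hlim
    refine tendsto_of_tendsto_of_tendsto_of_le_of_le' tendsto_const_nhds hlim ?_ ?_
    · filter_upwards [hlow, eventually_gt_atTop 1] with r hr hr1
      have hl : 0 < Real.log r := Real.log_pos hr1
      have hr0 : 0 < r := by linarith
      rw [le_div_iff₀ hl]
      have h3 : Real.exp (r ^ N) ≤ F.M r := by
        have := F.norm_f_le_M (r : ℂ)
        rw [Complex.norm_real, Real.norm_of_nonneg (by linarith)] at this
        exact hr.trans this
      have h4 : r ^ N ≤ Real.log (F.M r) := by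
        rw [Real.le_log_iff_exp_le (lt_of_lt_of_le (Real.exp_pos _) h3)]
        exact h3
      have h5 := Real.log_le_log (by positivity) h4
      rwa [Real.log_pow] at h5
    · filter_upwards [hlow, eventually_gt_atTop 1] with r hr hr1
      have hl : 0 < Real.log r := Real.log_pos hr1
      have hr0 : 0 < r := by linarith
      have hrN : 1 ≤ r ^ N := one_le_pow₀ hr1.le
      have h3 : Real.exp (r ^ N) ≤ F.M r := by
        have := F.norm_f_le_M (r : ℂ)
        rw [Complex.norm_real, Real.norm_of_nonneg (by linarith)] at this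
        exact hr.trans this
      have h4 : F.M r ≤ K * (1 + r ^ N) ^ 2 * Real.exp (r ^ N) := by
        unfold Lac.M
        apply csSup_le
        · exact ⟨_, ⟨(r : ℂ), by simp [abs_of_pos hr0], rfl⟩⟩
        · rintro _ ⟨w, hw, rfl⟩
          rw [mem_sphere_zero_iff_norm] at hw
          have := hup w
          rwa [hw] at this
      have hM0 : 0 < F.M r := lt_of_lt_of_le (Real.exp_pos _) h3
      have h5 : Real.log (F.M r) ≤ (3 + |Real.log K|) * r ^ N := by
        have h6 := Real.log_le_log hM0 h4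
        rw [Real.log_mul (by positivity) (Real.exp_pos _).ne', Real.log_mul hK.ne' (by positivity),
          Real.log_exp, Real.log_pow] at h6
        have h7 : Real.log (1 + r ^ N) ≤ r ^ N := by
          have := Real.log_le_sub_one_of_pos (by positivity : 0 < 1 + r ^ N)
          linarith
        have h8 : Real.log K ≤ |Real.log K| * r ^ N := by
          refine (le_abs_self _).trans ?_
          exact le_mul_of_one_le_right (abs_nonneg _) hrN
        push_cast at h6
        linarith
      have h6 : 0 < Real.log (F.M r) := by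
        have : r ^ N ≤ Real.log (F.M r) := by
          rw [Real.le_log_iff_exp_le hM0]
          exact h3
        linarith
      have h7 := Real.log_le_log h6 h5
      rw [Real.log_mul (by positivity) (by positivity), Real.log_pow] at h7
      rw [div_le_iff₀ hl, add_mul, div_mul_cancel₀ _ hl.ne']
      linarith
  have h2 : Tendsto (fun r : ℝ => ((Real.log (Real.log (F.M r)) / Real.log r : ℝ) : EReal)) atTop
      (𝓝 ((N : ℝ) : EReal)) := (continuous_coe_real_ereal.tendsto _).comp ht
  exact h2.limsup_eq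

end Pool.Agent.V7H89.C2
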