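import Mathlib
import Pool.Agent.V7H89.C2.Lc

/-!
Members of the classes `G n N` and `G n ⊤` with large `δ`.
-/

set_option autoImplicit false

open Complex Set Filter Topology
open Pool.Agent.Results.MP_c20521_an.BelowN

namespace Pool.Agent.V7H89.C2

theorem bdd (n : ℕ) (ρ : EReal) : BddAbove (Lac.δ '' G n ρ) := by
  refine ⟨Real.pi, ?_⟩
  rintro _ ⟨F, hF, rfl⟩
  exact delta_le F hF.1

/-- the function of order `N` -/
theorem exists_finite {N n D : ℕ} (hn : 2 ≤ n) (hnN : n < N) (hnD : n ≤ D + 1) (hDN : D < N) (hodd : Odd (N + D))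
    {Θ : ℝ} (hΘ : 0 < Θ) (hΘ2 : Θ < Real.pi * (1 - (D + 1 / 2) / N)) :
    ∃ F ∈ G n ((N : ℝ) : EReal), Θ ≤ F.δ := by
  obtain ⟨κ, η, C, d⟩ := exists_data hn hnN hnD hDN hodd hΘ hΘ2
  obtain ⟨F, hF, hA⟩ := mkLac hn hnN d.ser d.pos d.zero
  have hz : ∀ z, F.f z = 0 ↔ QQ N n D κ η z = 0 := by
    intro z
    rw [hF z, mul_eq_zero]
    exact ⟨fun h => h.resolve_left (Complex.exp_ne_zero _), Or.inr⟩
  have hinf : F.zeros.Infinite := by
    have : F.zeros = {z | QQ N n D κ η z = 0} := by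
      ext z; exact hz z
    rw [this]
    exact d.Q_infinite
  have hη := d.hη
  have hC := d.hC
  refine ⟨F, ⟨hinf, hA, ?_⟩, ?_⟩
  · refine order_eq (K := N + η * C) (by have := d.Npos; positivity) (fun z => ?_) ?_
    · rw [hF z]
      exact d.f0_le z
    · obtain ⟨R, hR1, hR⟩ := d.Q_ge
      filter_upwards [eventually_ge_atTop R] with r hr
      have hr0 : 0 ≤ r := by linarith
      rw [hF]
      have h1 := hR (r : ℂ) (by rw [Complex.arg_ofReal_of_nonneg hr0, abs_zero]; exact d.hΘ.le)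
        (by rw [Complex.norm_real, Real.norm_of_nonneg hr0]; exact hr)
      rw [norm_mul, Complex.norm_exp, ← Complex.ofReal_pow, Complex.ofReal_re]
      exact le_mul_of_one_le_right (Real.exp_pos _).le h1
  · apply delta_ge hinf
    refine d.Q_sector_finite.subset ?_
    rintro z ⟨h1, h2⟩
    exact ⟨(hz z).1 h1, h2⟩

/-- the function of infinite order -/
theorem exists_infinite {N n D : ℕ} (hn : 2 ≤ n) (hnN : n < N) (hnD : n ≤ D + 1) (hDN : D < N) (hodd : Odd (N + D))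
    {Θ : ℝ} (hΘ : 0 < Θ) (hΘ2 : Θ < Real.pi * (1 - (D + 1 / 2) / N)) :
    ∃ F ∈ G n ⊤, Θ ≤ F.δ := by
  obtain ⟨κ, η, C, d⟩ := exists_data hn hnN hnD hDN hodd hΘ hΘ2
  obtain ⟨b, hb, hb0, hbs⟩ := ser_expexp
  have hser := (hbs.comp_pow d.Npos).mul d.ser
  obtain ⟨hp, hz0⟩ := mul_pos_ser (N := N) (n := n) hb hb0 d.pos d.zero
  obtain ⟨F, hF, hA⟩ := mkLac hn hnN hser hp hz0
  have hz : ∀ z, F.f z = 0 ↔ QQ N n D κ η z = 0 := by
    intro z
    rw [hF z, mul_eq_zero, mul_eq_zero]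
    exact ⟨fun h => (h.resolve_left (Complex.exp_ne_zero _)).resolve_left (Complex.exp_ne_zero _),
      fun h => Or.inr (Or.inr h)⟩
  have hinf : F.zeros.Infinite := by
    have : F.zeros = {z | QQ N n D κ η z = 0} := by
      ext z; exact hz z
    rw [this]
    exact d.Q_infinite
  refine ⟨F, ⟨hinf, hA, ?_⟩, ?_⟩
  · apply order_top d.Npos
    obtain ⟨R, hR1, hR⟩ := d.Q_ge
    filter_upwards [eventually_ge_atTop R] with r hr
    have hr0 : 0 ≤ r := by linarith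
    rw [hF]
    have h1 := hR (r : ℂ) (by rw [Complex.arg_ofReal_of_nonneg hr0, abs_zero]; exact d.hΘ.le)
      (by rw [Complex.norm_real, Real.norm_of_nonneg hr0]; exact hr)
    rw [norm_mul, norm_mul, Complex.norm_exp, Complex.norm_exp, ← Complex.ofReal_pow, ← Complex.ofReal_exp,
      Complex.ofReal_re, Complex.ofReal_re]
    have h2 : 1 ≤ Real.exp (r ^ N) := Real.one_le_exp (by positivity)
    have h3 : 1 ≤ Real.exp (r ^ N) * ‖QQ N n D κ η (r : ℂ)‖ := by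
      nlinarith
    exact le_mul_of_one_le_right (Real.exp_pos _).le h3
  · apply delta_ge hinf
    refine d.Q_sector_finite.subset ?_
    rintro z ⟨h1, h2⟩
    exact ⟨(hz z).1 h1, h2⟩

theorem lower (n : ℕ) (hn : 2 ≤ n) (N D : ℕ) (hnN : n < N) (hD : D = n ∨ D + 1 = n) (hodd : Odd (N + D)) :
    Real.pi * (1 - ((D : ℝ) + 1 / 2) / N) ≤ g n ((N : ℝ) : EReal) := by
  have hN0 : (0:ℝ) < N := by exact_mod_cast (by omega : 0 < N)
  have hpos : 0 < Real.pi * (1 - ((D : ℝ) + 1 / 2) / N) := by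
    apply mul_pos Real.pi_pos
    rw [sub_pos, div_lt_one hN0]
    have : (D : ℝ) + 1 ≤ N := by exact_mod_cast (by omega : D + 1 ≤ N)
    linarith
  apply le_of_forall_lt
  intro t ht
  have h1 : max t 0 < Real.pi * (1 - ((D : ℝ) + 1 / 2) / N) := max_lt ht hpos
  obtain ⟨Θ, hΘ1, hΘ2⟩ := exists_between h1
  obtain ⟨F, hF, hδ⟩ := exists_finite hn hnN (by omega) (by omega) hodd
    (lt_of_le_of_lt (le_max_right _ _) hΘ1) hΘ2
  have h2 : F.δ ≤ g n ((N : ℝ) : EReal) := le_csSup (bdd n _) ⟨F, hF, rfl⟩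
  have h3 := le_max_left t 0
  linarith

theorem top_ge (n : ℕ) (hn : 2 ≤ n) (t : ℝ) (ht : t < Real.pi) : ∃ F ∈ G n ⊤, t ≤ F.δ := by
  have hpi := Real.pi_pos
  obtain ⟨m, hm⟩ := exists_nat_gt (Real.pi * (n + 1) / (Real.pi - t))
  have htp : 0 < Real.pi - t := by linarith
  -- N of the right parity
  obtain ⟨N, D, hN1, hN2, hD, hodd⟩ : ∃ N D : ℕ, n < N ∧ m ≤ N ∧ D + 1 = n ∧ Odd (N + D) := by
    rcases Nat.even_or_odd (m + n) with h | h
    · refine ⟨m + 2 * n, n - 1, ?_, by omega, by omega, ?_⟩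
      · omega
      · obtain ⟨k, hk⟩ := h
        exact ⟨k + n - 1, by omega⟩
    · refine ⟨m + 2 * n + 1, n - 1, by omega, by omega, by omega, ?_⟩
      obtain ⟨k, hk⟩ := h
      exact ⟨k + n, by omega⟩
  have hN0 : (0:ℝ) < N := by exact_mod_cast (by omega : 0 < N)
  have hmN : (m : ℝ) ≤ N := by exact_mod_cast hN2
  have hDn : (D : ℝ) + 1 = n := by exact_mod_cast hD
  have hb : t < Real.pi * (1 - ((D : ℝ) + 1 / 2) / N) := by
    rw [div_lt_iff₀ htp] at hm
    have h1 : Real.pi * (n + 1) < N * (Real.pi - t) := by nlinarith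
    have h2 : Real.pi * (((D : ℝ) + 1 / 2) / N) < Real.pi - t := by
      rw [← mul_div_assoc, div_lt_iff₀ hN0]
      nlinarith
    linarith
  have hpos : 0 < Real.pi * (1 - ((D : ℝ) + 1 / 2) / N) := by
    apply mul_pos Real.pi_pos
    rw [sub_pos, div_lt_one hN0]
    have : (D : ℝ) + 1 ≤ N := by exact_mod_cast (by omega : D + 1 ≤ N)
    linarith
  obtain ⟨Θ, hΘ1, hΘ2⟩ := exists_between (max_lt hb hpos)
  obtain ⟨F, hF, hδ⟩ := exists_infinite hn hN1 (by omega) (by omega) hodd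
    (lt_of_le_of_lt (le_max_right _ _) hΘ1) hΘ2
  exact ⟨F, hF, (le_max_left t 0).trans (hΘ1.le.trans hδ)⟩


end Pool.Agent.V7H89.C2
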